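import Mathlib

/-!
# Discriminants: base change, product formula, and the discriminant of `g + t X^k`
-/

namespace Q36.DDi

open Polynomial

/-- The discriminant commutes with ring homomorphisms to domains preserving the degree. -/
theorem discr_map {R S : Type*} [CommRing R] [CommRing S] [IsDomain S] (φ : R →+* S) (f : R[X])
    (hd : 0 < f.natDegree) (hlc : φ f.leadingCoeff ≠ 0) : (f.map φ).discr = φ f.discr := by
  have hn : (f.map φ).natDegree = f.natDegree := natDegree_map_of_leadingCoeff_ne_zero φ hlc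
  have h1 := resultant_deriv (f := f) (natDegree_pos_iff_degree_pos.1 hd)
  have h2 := resultant_deriv (f := f.map φ) (natDegree_pos_iff_degree_pos.1 (hn ▸ hd))
  rw [hn, derivative_map, resultant_map_map, h1] at h2
  have hl : (f.map φ).leadingCoeff = φ f.leadingCoeff := leadingCoeff_map_of_leadingCoeff_ne_zero
    φ hlc
  rw [hl] at h2
  simp only [map_mul, map_pow, map_neg, map_one] at h2
  have h3 : ((-1 : S) ^ (f.natDegree * (f.natDegree - 1) / 2) * φ f.leadingCoeff) ≠ 0 :=
    mul_ne_zero (pow_ne_zero _ (neg_ne_zero.2 one_ne_zero)) hlc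
  exact (mul_left_cancel₀ h3 h2).symm

/-- Signs. -/
def IsSign {R : Type*} [CommRing R] (e : R) : Prop := e = 1 ∨ e = -1

theorem isSign_pow {R : Type*} [CommRing R] (m : ℕ) : IsSign ((-1 : R) ^ m) :=
  neg_one_pow_eq_or R m

theorem IsSign.mul {R : Type*} [CommRing R] {e f : R} (he : IsSign e) (hf : IsSign f) :
    IsSign (e * f) := by
  rcases he with rfl | rfl <;> rcases hf with rfl | rfl
  · left; ring
  · right; ring
  · right; ring
  · left; ring

theorem IsSign.sq {R : Type*} [CommRing R] {e : R} (he : IsSign e) : e * e = 1 := by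
  rcases he with rfl | rfl <;> ring

theorem IsSign.map {R S : Type*} [CommRing R] [CommRing S] (φ : R →+* S) {e : R}
    (he : IsSign e) : IsSign (φ e) := by
  rcases he with rfl | rfl
  · left; exact map_one φ
  · right; rw [map_neg, map_one]

theorem natDegree_split {R : Type*} [CommRing R] [IsDomain R] {N : ℕ} {L : R} (hL : L ≠ 0)
    (s : Fin N → R) : (C L * ∏ i, (X - C (s i))).natDegree = N := by
  rw [natDegree_C_mul hL, natDegree_prod_of_monic _ _ (fun i _ => monic_X_sub_C _)]
  simp

theorem leadingCoeff_split {R : Type*} [CommRing R] [IsDomain R] {N : ℕ} {L : R}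
    (s : Fin N → R) : (C L * ∏ i, (X - C (s i))).leadingCoeff = L := by
  rw [leadingCoeff_mul, leadingCoeff_C, (monic_prod_of_monic _ _ (fun i _ =>
    monic_X_sub_C _)).leadingCoeff, mul_one]

theorem roots_split {R : Type*} [CommRing R] [IsDomain R] {N : ℕ} {L : R} (hL : L ≠ 0)
    (s : Fin N → R) : (C L * ∏ i, (X - C (s i))).roots = Finset.univ.val.map s := by
  rw [roots_C_mul _ hL]
  rw [roots_prod _ _ (Finset.prod_ne_zero_iff.2 (fun i _ => X_sub_C_ne_zero _))]
  simp only [roots_X_sub_C]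
  exact Multiset.bind_singleton _ _

theorem splits_split {R : Type*} [CommRing R] [IsDomain R] {N : ℕ} {L : R}
    (s : Fin N → R) : (C L * ∏ i, (X - C (s i))).Splits := by
  refine Splits.mul (Splits.C _) ?_
  exact Splits.prod (fun i _ => Splits.X_sub_C _)

theorem resultant_split {R : Type*} [CommRing R] [IsDomain R] {N : ℕ} {L : R} (hL : L ≠ 0)
    (s : Fin N → R) (f : R[X]) (m : ℕ) (hf : f.natDegree ≤ m) :
    resultant (C L * ∏ i, (X - C (s i))) f N m = L ^ m * ∏ i, f.eval (s i) := by
  have h := resultant_eq_prod_eval (C L * ∏ i, (X - C (s i))) f m hf (splits_split s)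
  rw [natDegree_split hL, leadingCoeff_split, roots_split hL, Multiset.map_map] at h
  rw [h]
  rfl

/-- The discriminant of a split polynomial. -/
theorem discr_split {R : Type*} [CommRing R] [IsDomain R] {N : ℕ} (hN : 0 < N) {L : R}
    (hL : L ≠ 0) (s : Fin N → R) : ∃ e : R, IsSign e ∧
      (C L * ∏ i, (X - C (s i))).discr =
        e * L ^ (2 * N - 2) * ∏ i, ∏ j ∈ Finset.univ.erase i, (s i - s j) := by
  set f : R[X] := C L * ∏ i, (X - C (s i)) with hf
  have hn : f.natDegree = N := natDegree_split hL s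
  have hdeg : f.derivative.natDegree ≤ N - 1 := by
    rw [← hn]
    exact natDegree_derivative_le f
  have h1 := resultant_deriv (f := f) (natDegree_pos_iff_degree_pos.1 (hn ▸ hN))
  rw [hn] at h1
  have h2 : resultant f f.derivative N (N - 1) = L ^ (N - 1) * ∏ i, f.derivative.eval (s i) :=
    resultant_split hL s _ _ hdeg
  have h3 : ∀ i, f.derivative.eval (s i) = L * ∏ j ∈ Finset.univ.erase i, (s i - s j) := by
    intro i
    have h4 : f = C L * ((X - C (s i)) * ∏ j ∈ Finset.univ.erase i, (X - C (s j))) := by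
      rw [hf, ← Finset.mul_prod_erase Finset.univ (fun j => X - C (s j)) (Finset.mem_univ i)]
    rw [h4]
    simp [derivative_mul, eval_prod]
  rw [h2] at h1
  simp only [h3] at h1
  rw [Finset.prod_mul_distrib, Finset.prod_const, Finset.card_univ, Fintype.card_fin,
    hf, leadingCoeff_split, ← hf] at h1
  refine ⟨(-1) ^ (N * (N - 1) / 2), isSign_pow _, ?_⟩
  have hs : ((-1 : R) ^ (N * (N - 1) / 2)) * (-1) ^ (N * (N - 1) / 2) = 1 := (isSign_pow _).sq
  apply mul_left_cancel₀ hL
  have h5 : L ^ (N - 1) * (L ^ N * ∏ i, ∏ j ∈ Finset.univ.erase i, (s i - s j)) =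
      L * (L ^ (2 * N - 2) * ∏ i, ∏ j ∈ Finset.univ.erase i, (s i - s j)) := by
    have : L ^ (N - 1) * L ^ N = L * L ^ (2 * N - 2) := by
      rw [← pow_add, ← pow_succ']
      congr 1
      omega
    rw [← mul_assoc, this, mul_assoc]
  rw [h5] at h1
  calc L * f.discr = ((-1 : R) ^ (N * (N - 1) / 2)) * (((-1) ^ (N * (N - 1) / 2)) * L * f.discr) := by
        rw [← mul_assoc, ← mul_assoc, hs, one_mul]
    _ = ((-1 : R) ^ (N * (N - 1) / 2)) *
        (L * (L ^ (2 * N - 2) * ∏ i, ∏ j ∈ Finset.univ.erase i, (s i - s j))) := by rw [h1]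
    _ = _ := by ring

/-! ### The family `g + t X^k` -/

section Gen
variable {R : Type*} [CommRing R]

/-- `g = ∑_{i ≤ n, i ≠ k} a_i X^i`. -/
noncomputable def gp (n k : ℕ) (a : ℕ → R) : R[X] :=
  ∑ i ∈ (Finset.range (n + 1)).erase k, C (a i) * X ^ i

theorem gp_coeff (n k : ℕ) (a : ℕ → R) (i : ℕ) :
    (gp n k a).coeff i = if i ≤ n ∧ i ≠ k then a i else 0 := by
  rw [gp, finsetSum_coeff]
  simp only [coeff_C_mul, coeff_X_pow, mul_ite, mul_one, mul_zero]
  rw [Finset.sum_ite_eq]
  congr 1
  simp only [Finset.mem_erase, Finset.mem_range, eq_iff_iff]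
  constructor
  · rintro ⟨h1, h2⟩; exact ⟨by omega, h1⟩
  · rintro ⟨h1, h2⟩; exact ⟨h2, by omega⟩

theorem gp_map {S : Type*} [CommRing S] (φ : R →+* S) (n k : ℕ) (a : ℕ → R) :
    (gp n k a).map φ = gp n k (fun i => φ (a i)) := by
  ext i
  rw [coeff_map, gp_coeff, gp_coeff]
  split_ifs
  · rfl
  · exact map_zero φ

/-- `h = X g' - k g`. -/
noncomputable def hp (n k : ℕ) (a : ℕ → R) : R[X] :=
  X * derivative (gp n k a) - C (k : R) * gp n k a

theorem hp_coeff (n k : ℕ) (a : ℕ → R) (i : ℕ) :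
    (hp n k a).coeff i = ((i : R) - k) * (gp n k a).coeff i := by
  rw [hp, coeff_sub, coeff_C_mul]
  cases i with
  | zero => simp
  | succ i =>
    rw [coeff_X_mul, coeff_derivative]
    push_cast
    ring

theorem hp_map {S : Type*} [CommRing S] (φ : R →+* S) (n k : ℕ) (a : ℕ → R) :
    (hp n k a).map φ = hp n k (fun i => φ (a i)) := by
  ext i
  rw [coeff_map, hp_coeff, hp_coeff, map_mul, map_sub, map_natCast, map_natCast, ← coeff_map,
    gp_map]

theorem gp_natDegree_le (n k : ℕ) (a : ℕ → R) : (gp n k a).natDegree ≤ n := by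
  rw [natDegree_le_iff_coeff_eq_zero]
  intro i hi
  rw [gp_coeff, if_neg (by omega)]

theorem hp_natDegree_le (n k : ℕ) (a : ℕ → R) : (hp n k a).natDegree ≤ n := by
  rw [natDegree_le_iff_coeff_eq_zero]
  intro i hi
  rw [hp_coeff, gp_coeff, if_neg (by omega), mul_zero]

/-- `G = g + s X^k`. -/
noncomputable def Gp (n k : ℕ) (a : ℕ → R) (s : R) : R[X] := gp n k a + C s * X ^ k

theorem Gp_coeff (n k : ℕ) (a : ℕ → R) (s : R) {i : ℕ} (hi : i ≠ k) :
    (Gp n k a s).coeff i = (gp n k a).coeff i := by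
  rw [Gp, coeff_add, coeff_C_mul, coeff_X_pow, if_neg hi, mul_zero, add_zero]

theorem Gp_map {S : Type*} [CommRing S] (φ : R →+* S) (n k : ℕ) (a : ℕ → R) (s : R) :
    (Gp n k a s).map φ = Gp n k (fun i => φ (a i)) (φ s) := by
  rw [Gp, Gp, Polynomial.map_add, gp_map]
  simp

theorem Gp_natDegree_le {n k : ℕ} (hk : k ≤ n) (a : ℕ → R) (s : R) :
    (Gp n k a s).natDegree ≤ n := by
  rw [natDegree_le_iff_coeff_eq_zero]
  intro i hi
  rw [Gp_coeff _ _ _ _ (by omega), gp_coeff, if_neg (by omega)]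

theorem hp_eq (n k : ℕ) (a : ℕ → R) (s : R) :
    hp n k a = X * derivative (Gp n k a s) - C (k : R) * Gp n k a s := by
  have h : X * derivative (C s * X ^ k : R[X]) = C (k : R) * (C s * X ^ k) := by
    cases k with
    | zero => simp
    | succ k =>
      rw [derivative_C_mul, derivative_X_pow, pow_succ' X k, Nat.add_sub_cancel]
      ring
  rw [hp, Gp, derivative_add, mul_add, h]
  ring

/-- At a root `r` of `h` (a unit) the polynomial `g + s X^k` vanishing at `r` has a double
root. -/
theorem sq_dvd_Gp {n k : ℕ} {a : ℕ → R} {r s : R} (hr : IsUnit r)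
    (h0 : (gp n k a).eval r + s * r ^ k = 0) (h1 : (hp n k a).eval r = 0) :
    (X - C r) ^ 2 ∣ Gp n k a s := by
  have e0 : (Gp n k a s).eval r = 0 := by
    rw [Gp]
    simpa using h0
  have e1 : (derivative (Gp n k a s)).eval r = 0 := by
    rw [hp_eq n k a s, eval_sub, eval_mul, eval_mul, e0, mul_zero, sub_zero, eval_X] at h1
    exact hr.mul_right_eq_zero.1 h1
  obtain ⟨q, hq⟩ := dvd_iff_isRoot.2 e0
  have h2 : q.eval r = 0 := by
    rw [hq] at e1
    simpa [derivative_mul] using e1
  obtain ⟨w, rfl⟩ := dvd_iff_isRoot.2 h2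
  exact ⟨w, by rw [hq]; ring⟩

theorem hp_of_sq {n k : ℕ} {a : ℕ → R} {r s : R} {W : R[X]}
    (hW : Gp n k a s = (X - C r) ^ 2 * W) :
    hp n k a = (X - C r) * (2 * X * W + (X - C r) * (X * derivative W - C (k : R) * W)) := by
  rw [hp_eq n k a s, hW]
  have : derivative ((X - C r) ^ 2 * W) = 2 * (X - C r) * W + (X - C r) ^ 2 * derivative W := by
    rw [derivative_mul, derivative_pow]
    simp only [Nat.cast_ofNat, Nat.add_one_sub_one, pow_one, derivative_sub, derivative_X,
      derivative_C, sub_zero, mul_one]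
    rw [show (C (2 : R) : R[X]) = 2 from map_ofNat C 2]
  rw [this]
  ring

end Gen

section Family
variable {K : Type*} [Field K]

variable [CharZero K]

theorem hp_natDegree {n k : ℕ} (hk : k < n) {a : ℕ → K} (ha : a n ≠ 0) :
    (hp n k a).natDegree = n := by
  apply le_antisymm
  · rw [natDegree_le_iff_coeff_eq_zero]
    intro i hi
    rw [hp_coeff, gp_coeff, if_neg (by omega), mul_zero]
  · apply le_natDegree_of_ne_zero
    rw [hp_coeff, gp_coeff, if_pos ⟨le_rfl, by omega⟩]
    refine mul_ne_zero ?_ ha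
    rw [sub_ne_zero]
    exact_mod_cast (by omega : n ≠ k)

/-- The family as a polynomial over `K[t]`. -/
noncomputable def Fp (n k : ℕ) (a : ℕ → K) : K[X][X] :=
  (gp n k a).map C + C X * X ^ k

omit [CharZero K] in
theorem Fp_coeff (n k : ℕ) (a : ℕ → K) (i : ℕ) :
    (Fp n k a).coeff i = C ((gp n k a).coeff i) + if i = k then X else 0 := by
  rw [Fp, coeff_add, coeff_map, coeff_C_mul, coeff_X_pow]
  simp

omit [CharZero K] in
theorem Fp_coeff_n {n k : ℕ} (hk : k < n) (a : ℕ → K) : (Fp n k a).coeff n = C (a n) := by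
  rw [Fp_coeff, gp_coeff, if_pos ⟨le_rfl, by omega⟩, if_neg (by omega), add_zero]

omit [CharZero K] in
theorem Fp_natDegree {n k : ℕ} (hk : k < n) {a : ℕ → K} (ha : a n ≠ 0) :
    (Fp n k a).natDegree = n := by
  apply le_antisymm
  · rw [natDegree_le_iff_coeff_eq_zero]
    intro i hi
    rw [Fp_coeff, gp_coeff, if_neg (by omega), if_neg (by omega), map_zero, add_zero]
  · apply le_natDegree_of_ne_zero
    rw [Fp_coeff_n hk]
    exact C_ne_zero.2 ha

omit [CharZero K] in
theorem Fp_eval (n k : ℕ) (a : ℕ → K) {r : K} (hr : r ≠ 0) :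
    (Fp n k a).eval (C r) = C (r ^ k) * (X - C (-(gp n k a).eval r / r ^ k)) := by
  have h1 : ((gp n k a).map C).eval (C r) = C ((gp n k a).eval r) := by
    rw [eval_map, eval₂_at_apply]
  rw [Fp, eval_add, h1, eval_mul, eval_C, eval_pow, eval_X, mul_sub, ← C_mul, ← C_pow]
  have : r ^ k * (-(gp n k a).eval r / r ^ k) = -(gp n k a).eval r := by
    field_simp
  rw [this, C_neg]
  ring

theorem Fp_deriv_natDegree {n k : ℕ} (hk : k < n) {a : ℕ → K} (ha : a n ≠ 0) :
    (derivative (Fp n k a)).natDegree = n - 1 := by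
  apply le_antisymm
  · have := natDegree_derivative_le (Fp n k a)
    rwa [Fp_natDegree hk ha] at this
  · apply le_natDegree_of_ne_zero
    rw [coeff_derivative, Nat.sub_add_cancel (by omega), Fp_coeff_n hk]
    refine mul_ne_zero (C_ne_zero.2 ha) ?_
    have : ((n - 1 : ℕ) : K[X]) + 1 = (n : K[X]) := by
      rw [← Nat.cast_succ, Nat.succ_eq_add_one, Nat.sub_add_cancel (by omega)]
    rw [this]
    exact_mod_cast (by omega : n ≠ 0)

omit [CharZero K] in
theorem Fp_h (n k : ℕ) (a : ℕ → K) (hk1 : 1 ≤ k) :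
    X * derivative (Fp n k a) + Fp n k a * C (-(k : K[X])) = (hp n k a).map C := by
  have hX : (X : K[X][X]) * X ^ (k - 1) = X ^ k := by
    rw [← pow_succ', Nat.sub_add_cancel hk1]
  rw [Fp, hp]
  simp only [derivative_add, derivative_map, derivative_mul, derivative_C, derivative_X_pow,
    zero_mul, zero_add, Polynomial.map_sub, Polynomial.map_mul, map_X, map_neg,
    map_natCast, Polynomial.map_natCast]
  linear_combination (C X * (k : K[X][X])) * hX

omit [CharZero K] in
theorem map_split {N : ℕ} (c : K) (r : Fin N → K) :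
    (C c * ∏ i, (X - C (r i)) : K[X]).map (C : K →+* K[X]) =
      C (C c) * ∏ i, (X - C (C (r i))) := by
  rw [Polynomial.map_mul, map_C, Polynomial.map_prod]
  congr 1
  apply Finset.prod_congr rfl
  intro i _
  rw [Polynomial.map_sub, map_X, map_C]

/-- The discriminant of the family, in terms of the nonzero roots of `h`. -/
theorem discr_Fp {n k N : ℕ} (hn : 2 ≤ n) (hk : k < n) {a : ℕ → K} (ha : a n ≠ 0)
    (hN : N + (if k = 0 then 1 else 0) = n) (r : Fin N → K) (hr : ∀ i, r i ≠ 0)
    (hh : hp n k a = C (((n : K) - k) * a n) * X ^ (if k = 0 then 1 else 0) *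
      ∏ i, (X - C (r i))) :
    ∃ e : K, IsSign e ∧ C (a n * (if k = 0 then 1 else a 0)) * (Fp n k a).discr =
      C (e * (((n : K) - k) * a n) ^ n * (∏ i, r i) ^ k) *
        ∏ i, (X - C (-(gp n k a).eval (r i) / r i ^ k)) := by
  have hlc : ((n : K) - k) * a n ≠ 0 := by
    refine mul_ne_zero ?_ ha
    rw [sub_ne_zero]
    exact_mod_cast (by omega : n ≠ k)
  set c : K := ((n : K) - k) * a n with hc
  have hF := Fp_natDegree hk ha
  have hlF : (Fp n k a).leadingCoeff = C (a n) := by
    rw [leadingCoeff, hF, Fp_coeff_n hk]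
  have h1 := resultant_deriv (f := Fp n k a) (natDegree_pos_iff_degree_pos.1 (by omega))
  rw [hF, hlF] at h1
  have hprod : ∏ i, (Fp n k a).eval (C (r i)) = C ((∏ i, r i) ^ k) *
      ∏ i, (X - C (-(gp n k a).eval (r i) / r i ^ k)) := by
    have : ∀ i, (Fp n k a).eval (C (r i)) = C (r i ^ k) *
        (X - C (-(gp n k a).eval (r i) / r i ^ k)) := fun i => Fp_eval n k a (hr i)
    simp only [this]
    rw [Finset.prod_mul_distrib, ← map_prod, Finset.prod_pow]
  by_cases hk0 : k = 0
  · simp only [hk0, if_true] at hh hN ⊢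
    have hg' : derivative (gp n 0 a) = C c * ∏ i, (X - C (r i)) := by
      have h2 : X * derivative (gp n 0 a) = X * (C c * ∏ i, (X - C (r i))) := by
        rw [hp] at hh
        simp only [Nat.cast_zero, C_0, zero_mul, sub_zero, pow_one] at hh
        rw [hh]
        rw [hc, hk0]
        simp only [Nat.cast_zero, sub_zero]
        ring
      exact mul_left_cancel₀ X_ne_zero h2
    have hF' : derivative (Fp n k a) = C (C c) * ∏ i, (X - C (C (r i))) := by
      rw [hk0, Fp, ← map_split, ← hg']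
      simp
    have h3 := resultant_split (C_ne_zero.2 hlc) (fun i => (C (r i) : K[X])) (Fp n k a) n hF.le
    rw [← hF', resultant_comm] at h3
    have hNn : n - 1 = N := by omega
    rw [hNn] at h1
    rw [h1] at h3
    have h4 : (C (a n * 1) : K[X]) * (Fp n 0 a).discr = C (((-1) ^ (N * n) *
        (-1) ^ (n * N / 2)) * c ^ n * (∏ i, r i) ^ 0) *
        ∏ i, (X - C (-(gp n 0 a).eval (r i) / r i ^ 0)) := by
      have e1 : ((-1 : K[X]) ^ (N * n)) * (-1) ^ (N * n) = 1 := (isSign_pow _).sq
      have e2 : ((-1 : K[X]) ^ (n * N / 2)) * (-1) ^ (n * N / 2) = 1 :=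
        (isSign_pow _).sq
      have h5 : (C c : K[X]) ^ n * ∏ i, (Fp n k a).eval (C (r i)) =
          C c ^ n * (C ((∏ i, r i) ^ 0) *
            ∏ i, (X - C (-(gp n 0 a).eval (r i) / r i ^ 0))) := by
        rw [hprod, hk0]
      rw [h5] at h3
      rw [hk0] at h3
      simp only [mul_one, map_mul, map_pow, map_neg, map_one]
      simp only [map_pow] at h3
      linear_combination ((-1 : K[X]) ^ (N * n) * (-1) ^ (n * N / 2)) * h3 -
        (C (a n) * (Fp n 0 a).discr) * ((-1 : K[X]) ^ (n * N / 2) *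
          (-1) ^ (n * N / 2)) * e1 - (C (a n) * (Fp n 0 a).discr) * e2
    exact ⟨(-1) ^ (N * n) * (-1) ^ (n * N / 2), (isSign_pow _).mul (isSign_pow _), h4⟩
  · have hk1 : 1 ≤ k := Nat.one_le_iff_ne_zero.2 hk0
    simp only [hk0, if_false, pow_zero, mul_one, add_zero] at hh hN ⊢
    have hNn : n = N := hN.symm
    subst hNn
    have hH : (hp n k a).map C = C (C c) * ∏ i, (X - C (C (r i))) := by
      rw [hh, map_split]
    have h3 := resultant_split (C_ne_zero.2 hlc) (fun i => (C (r i) : K[X])) (Fp n k a) n hF.le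
    rw [← hH, ← Fp_h n k a hk1, resultant_comm] at h3
    have hXF : (X * derivative (Fp n k a)).natDegree = n := by
      rw [natDegree_X_mul, Fp_deriv_natDegree hk ha]
      · omega
      · intro h0
        have := Fp_deriv_natDegree hk ha
        rw [h0, natDegree_zero] at this
        omega
    rw [resultant_add_mul_right (hp := by
      rw [natDegree_C]
      omega) (hf := hF.le)] at h3
    have h4 := resultant_mul_right (Fp n k a) X (derivative (Fp n k a)) n hF.le
    rw [natDegree_X, Fp_deriv_natDegree hk ha] at h4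
    rw [show 1 + (n - 1) = n by omega, h1] at h4
    have h5 : resultant (Fp n k a) X n 1 = (-1) ^ n * C (a 0) := by
      have := resultant_X_sub_C_right (Fp n k a) n (0 : K[X]) hF.le
      rw [C_0, sub_zero] at this
      rw [this, ← coeff_zero_eq_eval_zero, Fp_coeff, gp_coeff, if_pos ⟨by omega, by omega⟩,
        if_neg (by omega), add_zero]
    rw [h5] at h4
    rw [h4, hprod] at h3
    refine ⟨(-1) ^ (n * n) * ((-1) ^ n * (-1) ^ (n * (n - 1) / 2)),
      (isSign_pow _).mul ((isSign_pow _).mul (isSign_pow _)), ?_⟩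
    have e1 : ((-1 : K[X]) ^ (n * n)) * (-1) ^ (n * n) = 1 := (isSign_pow _).sq
    have e2 : ((-1 : K[X]) ^ n) * (-1) ^ n = 1 := (isSign_pow _).sq
    have e3 : ((-1 : K[X]) ^ (n * (n - 1) / 2)) * (-1) ^ (n * (n - 1) / 2) = 1 :=
      (isSign_pow _).sq
    simp only [map_mul, map_pow, map_neg, map_one]
    simp only [map_pow] at h3
    set A : K[X] := (-1) ^ (n * n)
    set B : K[X] := (-1) ^ n
    set D : K[X] := (-1) ^ (n * (n - 1) / 2)
    set P := ∏ i, (X - C (-(gp n k a).eval (r i) / r i ^ k))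
    set Q := (Fp n k a).discr
    linear_combination (A * (B * D)) * h3 -
        (C (a n) * C (a 0) * Q) * (B * B) * (D * D) * e1 -
        (C (a n) * C (a 0) * Q) * (D * D) * e2 - (C (a n) * C (a 0) * Q) * e3

end Family

end Q36.DDi
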