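import Pool.Agent.Q36.DDi.Main

/-!
# The exact formula for the content of the double discriminants
-/

namespace Q36.DDi

open Polynomial IsLocalRing

/-- The exponent of `p` in the content of `DD n k`. -/
def expo (n k p : ℕ) : ℕ :=
  (if p = 2 then 2 * (n - (if k = 0 then 1 else 0) - (if k ≠ 0 ∧ p ∣ k then 1 else 0) -
    (if p ∣ n - k then 1 else 0)) else 0) +
  (if (k ≠ 0 ∧ p ∣ k) ∧ p ∣ n - k then
    2 * min (k * k.factorization p) ((n - k) * (n - k).factorization p) else 0)

theorem max_pow {Γ : Type*} [LinearOrderedCommGroupWithZero Γ] {x : Γ} (hx : x ≤ 1) (a b : ℕ) :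
    max (x ^ a) (x ^ b) = x ^ (min a b) := by
  rcases le_total a b with h | h
  · rw [min_eq_left h, max_eq_left]
    exact pow_le_pow_right_of_le_one' hx h
  · rw [min_eq_right h, max_eq_right]
    exact pow_le_pow_right_of_le_one' hx h

/-- The exact formula. -/
theorem content_formula {n k : ℕ} (hn : 3 ≤ n) (hk : k < n) (p : ℕ) (hp : p.Prime) :
    DD n k ≠ 0 ∧ (content (DD n k)).factorization p = expo n k p := by
  have : Fact p.Prime := ⟨hp⟩
  set A := MvPolynomial {i : Fin (n + 1) // (i : ℕ) ≠ k} ℤ with hA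
  set Ω := AlgebraicClosure (FractionRing A) with hΩ
  set ι : A →+* Ω := (algebraMap (FractionRing A) Ω).comp (algebraMap A (FractionRing A)) with hι
  have hinj : Function.Injective ι :=
    (algebraMap (FractionRing A) Ω).injective.comp (IsFractionRing.injective A (FractionRing A))
  have : CharZero Ω := charZero_of_injective_ringHom hinj
  obtain ⟨V, hV, hv⟩ := exists_val ι hinj p
  have hch : CharP (ResidueField V) p := charP_of_val hv
  let _ : Algebra (ZMod p) (ResidueField V) := ZMod.algebra _ p
  have h1 := val_DD ι hn hk hinj p V hV hv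
  have hk0 : ∀ {m : ℕ}, m ≠ 0 → V.valuation (m : Ω) ^ m =
      V.valuation (p : Ω) ^ (m * m.factorization p) := by
    intro m hm
    rw [val_cast_pow p hm, ← pow_mul, mul_comm]
  have h2 : V.valuation (ι (DD n k)) = V.valuation (p : Ω) ^ (expo n k p) := by
    rw [h1, expo, pow_add]
    congr 1
    · by_cases hp2 : p = 2
      · rw [if_pos hp2, if_pos hp2, ← pow_mul]
        rw [hp2]
        norm_num
      · rw [if_neg hp2, if_neg hp2, one_pow, pow_zero]
    · by_cases hb : (k ≠ 0 ∧ p ∣ k) ∧ p ∣ n - k
      · rw [if_pos hb, if_pos hb, hk0 hb.1.1, hk0 (by omega : n - k ≠ 0),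
          max_pow (val_p_lt p).le, ← pow_mul, mul_comm]
      · rw [if_neg hb, if_neg hb, pow_zero]
  have h3 : DD n k ≠ 0 := by
    intro h0
    rw [h0, map_zero, map_zero] at h2
    exact pow_ne_zero _ (val_p_pos p).ne' h2.symm
  refine ⟨h3, ?_⟩
  have h4 := val_content hV hv h3
  rw [h2] at h4
  exact (pow_val_inj p h4).symm

end Q36.DDi
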