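import Pool.Agent.Q36.DDi.Final

/-!
# The questions (a), (b), (c)
-/

namespace Q36.DDi

open Polynomial

/-! ### Arithmetic of the exponent -/

theorem expo_two {n k : ℕ} (hn : 3 ≤ n) (hk : 2 * k ≤ n) :
    4 * ((n - 1) / 2) ≤ expo n k 2 ∧ 4 ∣ expo n k 2 ∧
      (k = 0 → expo n k 2 = 4 * ((n - 1) / 2)) := by
  have key : ∃ u w, expo n k 2 = 4 * u + 4 * w ∧ (n - 1) / 2 ≤ u ∧
      (k = 0 → u = (n - 1) / 2 ∧ w = 0) := by
    rw [expo, if_pos rfl]
    by_cases hk0 : k = 0
    · subst hk0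
      simp only [Nat.sub_zero, ne_eq, not_true_eq_false, false_and, if_false, if_true, add_zero]
      by_cases h : 2 ∣ n
      · rw [if_pos h]
        exact ⟨(n - 1) / 2, 0, by omega, le_rfl, fun _ => ⟨rfl, rfl⟩⟩
      · rw [if_neg h]
        exact ⟨(n - 1) / 2, 0, by omega, le_rfl, fun _ => ⟨rfl, rfl⟩⟩
    · rw [if_neg hk0]
      by_cases h1 : 2 ∣ k
      · by_cases h2 : 2 ∣ n - k
        · rw [if_pos ⟨hk0, h1⟩, if_pos h2, if_pos ⟨⟨hk0, h1⟩, h2⟩]
          obtain ⟨x, hx⟩ := h1
          obtain ⟨y, hy⟩ := h2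
          have h3 : 2 * min (k * k.factorization 2) ((n - k) * (n - k).factorization 2) =
              4 * min (x * k.factorization 2) (y * (n - k).factorization 2) := by
            rw [hy]
            conv_lhs => rw [hx]
            rw [show 2 * x * (2 * x).factorization 2 = 2 * (x * (2 * x).factorization 2) by ring,
              show 2 * y * (2 * y).factorization 2 = 2 * (y * (2 * y).factorization 2) by ring,
              Nat.mul_min_mul_left, ← hx]
            ring
          rw [h3]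
          refine ⟨(n - 2) / 2, min (x * k.factorization 2) (y * (n - k).factorization 2), ?_,
            by omega, fun h => absurd h hk0⟩
          congr 1
          omega
        · rw [if_pos ⟨hk0, h1⟩, if_neg h2, if_neg (fun h : (k ≠ 0 ∧ 2 ∣ k) ∧ 2 ∣ n - k => h2 h.2)]
          exact ⟨(n - 1) / 2, 0, by omega, le_rfl, fun h => absurd h hk0⟩
      · rw [if_neg (fun h : k ≠ 0 ∧ 2 ∣ k => h1 h.2),
          if_neg (fun h : (k ≠ 0 ∧ 2 ∣ k) ∧ 2 ∣ n - k => h1 h.1.2)]
        by_cases h2 : 2 ∣ n - k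
        · rw [if_pos h2]
          exact ⟨(n - 1) / 2, 0, by omega, le_rfl, fun h => absurd h hk0⟩
        · rw [if_neg h2]
          exact ⟨n / 2, 0, by omega, by omega, fun h => absurd h hk0⟩
  obtain ⟨u, w, h1, h2, h3⟩ := key
  rw [h1]
  refine ⟨by omega, by omega, fun hk0 => ?_⟩
  obtain ⟨h4, h5⟩ := h3 hk0
  omega

theorem expo_dvd {n k p : ℕ} (hn : 3 ≤ n) (hk : 2 * k ≤ n) : 2 * p ∣ expo n k p := by
  by_cases hp2 : p = 2
  · rw [hp2]
    exact (expo_two hn hk).2.1
  · rw [expo, if_neg hp2, zero_add]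
    split_ifs with h
    · obtain ⟨⟨_, h1⟩, h2⟩ := h
      apply Nat.mul_dvd_mul_left
      rcases min_choice (k * k.factorization p) ((n - k) * (n - k).factorization p) with h3 | h3
      · rw [h3]; exact Dvd.dvd.mul_right h1 _
      · rw [h3]; exact Dvd.dvd.mul_right h2 _
    · exact dvd_zero _

theorem expo_pos {n k p : ℕ} (hn : 3 ≤ n) (hk : 2 * k ≤ n) (hk0 : 1 ≤ k) (hp : p.Prime) :
    1 ≤ expo n k p ↔ p ∣ 2 * Nat.gcd k n := by
  by_cases hp2 : p = 2
  · rw [hp2]
    have := (expo_two hn hk).1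
    constructor
    · intro _; exact dvd_mul_right _ _
    · intro _; omega
  · have h1 : p ∣ 2 * Nat.gcd k n ↔ (k ≠ 0 ∧ p ∣ k) ∧ p ∣ n - k := by
      rw [hp.dvd_mul]
      have h2 : ¬ p ∣ 2 := fun h => hp2 ((Nat.prime_dvd_prime_iff_eq hp Nat.prime_two).1 h)
      rw [or_iff_right h2, Nat.dvd_gcd_iff]
      constructor
      · rintro ⟨h3, h4⟩
        exact ⟨⟨by omega, h3⟩, Nat.dvd_sub h4 h3⟩
      · rintro ⟨⟨_, h3⟩, h4⟩
        refine ⟨h3, ?_⟩
        have := dvd_add h4 h3
        rwa [Nat.sub_add_cancel (by omega)] at this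
    rw [h1, expo, if_neg hp2, zero_add]
    split_ifs with h
    · refine ⟨fun _ => h, fun _ => ?_⟩
      have h5 : 1 ≤ k.factorization p := hp.factorization_pos_of_dvd (by omega) h.1.2
      have h6 : 1 ≤ (n - k).factorization p := hp.factorization_pos_of_dvd (by omega) h.2
      have h7 : 1 ≤ k * k.factorization p := Nat.mul_pos (by omega) h5
      have h8 : 1 ≤ (n - k) * (n - k).factorization p := Nat.mul_pos (by omega) h6
      have := le_min h7 h8
      omega
    · exact ⟨fun h' => by omega, fun h' => absurd h' h⟩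

/-! ### The case `n = 2` -/

theorem D_two : (genPoly 2).discr = MvPolynomial.X 1 ^ 2 -
    4 * MvPolynomial.X 0 * MvPolynomial.X 2 := by
  have hd : (genPoly 2).degree = 2 := by
    rw [degree_eq_natDegree, genPoly_natDegree]
    · rfl
    · intro h0
      have := genPoly_natDegree 2
      rw [h0, natDegree_zero] at this
      omega
  rw [discr_of_degree_eq_two hd, genPoly_coeff, genPoly_coeff, genPoly_coeff,
    dif_pos (by omega), dif_pos (by omega), dif_pos (by omega)]
  rfl

theorem DD_two_zero : DD 2 0 = 1 := by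
  rw [DD, D_two]
  apply discr_of_degree_eq_one
  have h : asPoly 2 0 (MvPolynomial.X 1 ^ 2 - 4 * MvPolynomial.X 0 * MvPolynomial.X 2) =
      C (-4 * MvPolynomial.X ⟨2, by decide⟩) * X + C (MvPolynomial.X ⟨1, by decide⟩ ^ 2) := by
    rw [map_sub, map_pow, map_mul, map_mul, asPoly_X, asPoly_X, asPoly_X, dif_pos (by decide),
      dif_neg (by decide), dif_pos (by decide)]
    rw [map_ofNat]
    simp only [map_mul, map_neg, map_pow]
    rw [show (C (4 : MvPolynomial {i : Fin (2 + 1) // (i : ℕ) ≠ 0} ℤ)) = 4 from map_ofNat C 4]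
    ring
  rw [h]
  apply degree_linear
  refine mul_ne_zero (by norm_num) (MvPolynomial.X_ne_zero _)

theorem DD_two_one : DD 2 1 = MvPolynomial.monomial
    (Finsupp.single ⟨0, by decide⟩ 1 + Finsupp.single ⟨2, by decide⟩ 1) 16 := by
  rw [DD, D_two]
  have h : asPoly 2 1 (MvPolynomial.X 1 ^ 2 - 4 * MvPolynomial.X 0 * MvPolynomial.X 2) =
      C 1 * X ^ 2 + C 0 * X +
        C (-4 * MvPolynomial.X ⟨0, by decide⟩ * MvPolynomial.X ⟨2, by decide⟩) := by
    rw [map_sub, map_pow, map_mul, map_mul, asPoly_X, asPoly_X, asPoly_X, dif_neg (by decide),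
      dif_pos (by decide), dif_pos (by decide)]
    rw [map_ofNat]
    simp only [map_mul, map_neg, map_one, map_zero]
    rw [show (C (4 : MvPolynomial {i : Fin (2 + 1) // (i : ℕ) ≠ 1} ℤ)) = 4 from map_ofNat C 4]
    ring
  rw [h, discr_of_degree_eq_two (degree_quadratic one_ne_zero)]
  have e0 : ∀ a b c : MvPolynomial {i : Fin (2 + 1) // (i : ℕ) ≠ 1} ℤ,
      (C a * X ^ 2 + C b * X + C c).coeff 0 = c := by intro a b c; simp
  have e1 : ∀ a b c : MvPolynomial {i : Fin (2 + 1) // (i : ℕ) ≠ 1} ℤ,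
      (C a * X ^ 2 + C b * X + C c).coeff 1 = b := by
    intro a b c; simp [coeff_C]
  have e2 : ∀ a b c : MvPolynomial {i : Fin (2 + 1) // (i : ℕ) ≠ 1} ℤ,
      (C a * X ^ 2 + C b * X + C c).coeff 2 = a := by
    intro a b c; simp
  rw [e0, e1, e2]
  have h16 : (MvPolynomial.monomial (Finsupp.single (⟨0, by decide⟩ :
      {i : Fin (2 + 1) // (i : ℕ) ≠ 1}) 1 + Finsupp.single ⟨2, by decide⟩ 1) (16 : ℤ)) =
      16 * (MvPolynomial.X ⟨0, by decide⟩ * MvPolynomial.X ⟨2, by decide⟩) := by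
    rw [MvPolynomial.X, MvPolynomial.X, MvPolynomial.monomial_mul,
      show (16 : MvPolynomial {i : Fin (2 + 1) // (i : ℕ) ≠ 1} ℤ) = MvPolynomial.C 16 from
        (map_ofNat MvPolynomial.C 16).symm, MvPolynomial.C_mul_monomial]
    norm_num
  rw [h16]
  ring

theorem content_two_zero : content (DD 2 0) = 1 := by
  rw [DD_two_zero]
  apply Nat.dvd_left_iff_eq.1
  intro d
  rw [dvd_content, MvPolynomial.C_dvd_iff_dvd_coeff]
  constructor
  · intro h
    have := h 0
    rw [MvPolynomial.coeff_zero_one] at this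
    exact_mod_cast this
  · intro h m
    rw [Nat.dvd_one.1 h]
    exact_mod_cast one_dvd _

theorem content_two_one : content (DD 2 1) = 16 := by
  rw [DD_two_one]
  apply Nat.dvd_left_iff_eq.1
  intro d
  rw [dvd_content, MvPolynomial.C_dvd_iff_dvd_coeff]
  constructor
  · intro h
    have := h (Finsupp.single ⟨0, by decide⟩ 1 + Finsupp.single ⟨2, by decide⟩ 1)
    rw [MvPolynomial.coeff_monomial, if_pos rfl] at this
    exact_mod_cast this
  · intro h m
    rw [MvPolynomial.coeff_monomial]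
    split_ifs
    · exact_mod_cast h
    · exact dvd_zero _

end Q36.DDi
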