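import Pool.Agent.Q36.DDi.Final2

/-!
# The closed formula
-/

namespace Q36.DDi

open Polynomial

theorem expo_eq {n k p : ℕ} (hn : 3 ≤ n) (hk : k < n) :
    expo n k p = (if p = 2 then 4 * ((n - 1) / 2) + (if Even n ∧ Odd k then 4 else 0) else 0) +
      2 * min (k * k.factorization p) ((n - k) * (n - k).factorization p) := by
  rw [expo]
  congr 1
  · by_cases hp : p = 2
    · rw [if_pos hp, if_pos hp, hp]
      by_cases hk0 : k = 0
      · subst hk0
        have h3 : ¬ (Even n ∧ Odd 0) := fun h => by simpa using h.2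
        simp only [Nat.sub_zero, ne_eq, not_true_eq_false, false_and, if_false, if_true, if_neg h3]
        by_cases h : 2 ∣ n
        · rw [if_pos h]; omega
        · rw [if_neg h]; omega
      · rw [if_neg hk0]
        by_cases h1 : 2 ∣ k
        · have h3 : ¬ (Even n ∧ Odd k) := fun h => Nat.not_even_iff_odd.2 h.2 (even_iff_two_dvd.2 h1)
          rw [if_pos (⟨hk0, h1⟩ : k ≠ 0 ∧ 2 ∣ k), if_neg h3]
          by_cases h2 : 2 ∣ n - k
          · rw [if_pos h2]; omega
          · rw [if_neg h2]; omega
        · have h1' : Odd k := Nat.not_even_iff_odd.1 (fun h => h1 (even_iff_two_dvd.1 h))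
          rw [if_neg (fun h : k ≠ 0 ∧ 2 ∣ k => h1 h.2)]
          by_cases h2 : 2 ∣ n - k
          · have h3 : ¬ (Even n ∧ Odd k) := by
              rintro ⟨h4, h5⟩
              have := even_iff_two_dvd.1 h4
              omega
            rw [if_pos h2, if_neg h3]
            omega
          · have h3 : Even n ∧ Odd k := ⟨even_iff_two_dvd.2 (by omega), h1'⟩
            rw [if_neg h2, if_pos h3]
            omega
    · rw [if_neg hp, if_neg hp]
  · split_ifs with h
    · rfl
    · symm
      by_cases h1 : k ≠ 0 ∧ p ∣ k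
      · have h2 : ¬ p ∣ n - k := fun h2 => h ⟨h1, h2⟩
        rw [Nat.factorization_eq_zero_of_not_dvd h2]
        simp
      · have h2 : k * k.factorization p = 0 := by
          by_cases hk0 : k = 0
          · rw [hk0, zero_mul]
          · have h3 : ¬ p ∣ k := fun h3 => h1 ⟨hk0, h3⟩
            rw [Nat.factorization_eq_zero_of_not_dvd h3, mul_zero]
        rw [h2]
        simp

theorem pow_self_ne_zero (k : ℕ) : k ^ k ≠ 0 := by
  by_cases hk : k = 0
  · rw [hk]; norm_num
  · exact pow_ne_zero _ hk

/-- The closed formula for the content. -/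
theorem closed {n k : ℕ} (hn : 2 ≤ n) (hk : k < n) : content (DD n k) =
    2 ^ (4 * ((n - 1) / 2) + if Even n ∧ Odd k then 4 else 0) *
      Nat.gcd (k ^ k) ((n - k) ^ (n - k)) ^ 2 := by
  by_cases h2 : n = 2
  · subst h2
    have h3 : k = 0 ∨ k = 1 := by omega
    rcases h3 with rfl | rfl
    · rw [content_two_zero]
      have : ¬ (Even 2 ∧ Odd 0) := fun h => by simpa using h.2
      rw [if_neg this]
      norm_num
    · rw [content_two_one]
      have : (Even 2 ∧ Odd 1) := ⟨by decide, by decide⟩
      rw [if_pos this]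
      norm_num
  · have hn3 : 3 ≤ n := by omega
    have hne := (content_formula hn3 hk 2 Nat.prime_two).1
    have hg : Nat.gcd (k ^ k) ((n - k) ^ (n - k)) ≠ 0 :=
      Nat.gcd_ne_zero_left (pow_self_ne_zero k)
    apply Nat.eq_of_factorization_eq (content_ne_zero hne)
      (mul_ne_zero (pow_ne_zero _ two_ne_zero) (pow_ne_zero _ hg))
    intro p
    by_cases hp : p.Prime
    · rw [(content_formula hn3 hk p hp).2, expo_eq hn3 hk,
        Nat.factorization_mul (pow_ne_zero _ two_ne_zero) (pow_ne_zero _ hg),
        Nat.factorization_pow, Nat.factorization_pow,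
        Nat.factorization_gcd (pow_self_ne_zero k) (pow_self_ne_zero _),
        Nat.factorization_pow, Nat.factorization_pow]
      simp only [Finsupp.coe_add, Finsupp.coe_smul, Pi.add_apply, Pi.smul_apply, smul_eq_mul,
        Finsupp.inf_apply]
      congr 1
      by_cases hp2 : p = 2
      · rw [if_pos hp2, hp2, Nat.Prime.factorization_self Nat.prime_two, mul_one]
      · rw [if_neg hp2]
        have : ¬ p ∣ 2 := fun h => hp2 ((Nat.prime_dvd_prime_iff_eq hp Nat.prime_two).1 h)
        rw [Nat.factorization_eq_zero_of_not_dvd this, mul_zero]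
    · rw [Nat.factorization_eq_zero_of_not_prime _ hp, Nat.factorization_eq_zero_of_not_prime _ hp]

end Q36.DDi
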