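import Pool.Agent.Q36.DDi.Val4

/-!
# A valuation with generic residues
-/

namespace Q36.DDi

open Polynomial IsLocalRing

universe u

/-- A valuation ring above the prime `p` of a polynomial ring over `ℤ`. -/
theorem exists_val {σ : Type*} {Ω : Type*} [Field Ω] (ι : MvPolynomial σ ℤ →+* Ω)
    (hι : Function.Injective ι) (p : ℕ) [Fact p.Prime] :
    ∃ V : ValuationSubring Ω, (∀ F, ι F ∈ V) ∧
      ∀ F, (V.valuation (ι F) < 1 ↔ (MvPolynomial.C (p : ℤ) : MvPolynomial σ ℤ) ∣ F) := by
  have hp : Prime (MvPolynomial.C (p : ℤ) : MvPolynomial σ ℤ) :=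
    (MvPolynomial.prime_C_iff σ).2 (Nat.prime_iff_prime_int.1 Fact.out)
  set P : Ideal (MvPolynomial σ ℤ) := Ideal.span {MvPolynomial.C (p : ℤ)} with hP
  have hPr : P.IsPrime := (Ideal.span_singleton_prime hp.ne_zero).2 hp
  have hu : ∀ y : P.primeCompl, IsUnit (ι y) := by
    intro y
    rw [isUnit_iff_ne_zero]
    intro h0
    have h1 : (y : MvPolynomial σ ℤ) = 0 := hι (by rw [h0, map_zero])
    exact y.2 (h1 ▸ P.zero_mem)
  set f : Localization.AtPrime P →+* Ω := IsLocalization.lift hu with hf
  have hfF : ∀ F, f (algebraMap _ _ F) = ι F := fun F => IsLocalization.lift_eq hu F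
  obtain ⟨V, hV, hloc⟩ := IsLocalRing.exists_factor_valuationRing f
  refine ⟨V, fun F => ?_, fun F => ?_⟩
  · rw [← hfF]
    exact hV _
  · rw [← Ideal.mem_span_singleton, ← hP]
    rw [← hfF]
    constructor
    · intro hlt
      by_contra hF
      have h1 : IsUnit (algebraMap _ (Localization.AtPrime P) F) :=
        IsLocalization.map_units (M := P.primeCompl) _ ⟨F, hF⟩
      have h2 : IsUnit (f.codRestrict V.toSubring hV (algebraMap _ _ F)) := h1.map _
      have h3 := (ValuationSubring.valuation_eq_one_iff V _).1 h2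
      exact hlt.ne h3
    · intro hF
      have h4 : ¬ IsUnit (f.codRestrict V.toSubring hV (algebraMap _ _ F)) := by
        intro h5
        have h6 := hloc.map_nonunit _ h5
        have h7 := (IsLocalization.AtPrime.isUnit_to_map_iff (Localization.AtPrime P) P F).1 h6
        exact h7 hF
      have h8 := (ValuationSubring.valuation_le_one_iff V _).2 (hV (algebraMap _ _ F))
      refine lt_of_le_of_ne h8 ?_
      intro h9
      exact h4 ((ValuationSubring.valuation_eq_one_iff V
        (f.codRestrict V.toSubring hV (algebraMap _ _ F))).2 h9)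

section Struct
variable {σ : Type*} {Ω : Type*} [Field Ω] {ι : MvPolynomial σ ℤ →+* Ω} {p : ℕ} [Fact p.Prime]
  {V : ValuationSubring Ω} (hV : ∀ F, ι F ∈ V)
  (hv : ∀ F, (V.valuation (ι F) < 1 ↔ (MvPolynomial.C (p : ℤ) : MvPolynomial σ ℤ) ∣ F))
include hv

theorem charP_of_val : CharP (ResidueField V) p := by
  apply ringChar.of_eq
  apply CharP.ringChar_of_prime_eq_zero Fact.out
  have h1 : residue V (p : V) = 0 := by
    rw [res_eq_zero_iff]
    have := (hv (MvPolynomial.C (p : ℤ))).2 dvd_rfl
    simpa using this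
  rwa [map_natCast] at h1

/-- The residues of the variables are algebraically independent. -/
theorem ind_of_val [Algebra (ZMod p) (ResidueField V)] : AlgebraicIndependent (ZMod p)
    (fun i : σ => residue V ⟨ι (MvPolynomial.X i), hV _⟩) := by
  rw [algebraicIndependent_iff]
  intro G hG
  obtain ⟨F, rfl⟩ := MvPolynomial.map_surjective (Int.castRingHom (ZMod p))
    (ZMod.ringHom_surjective _) G
  have h1 : ∀ F : MvPolynomial σ ℤ, MvPolynomial.aeval
      (fun i : σ => residue V ⟨ι (MvPolynomial.X i), hV _⟩)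
      (MvPolynomial.map (Int.castRingHom (ZMod p)) F) = residue V ⟨ι F, hV F⟩ := by
    intro F
    have h2 : ((MvPolynomial.aeval (R := ZMod p)
      (fun i : σ => residue V ⟨ι (MvPolynomial.X i), hV _⟩)).toRingHom.comp
        (MvPolynomial.map (Int.castRingHom (ZMod p)))) =
        (residue V).comp (ι.codRestrict V.toSubring hV) := by
      apply MvPolynomial.ringHom_ext
      · intro r
        simp
      · intro i
        simp
        rfl
    exact congrArg (fun g => g F) h2
  rw [h1, res_eq_zero_iff] at hG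
  have h3 := (hv F).1 hG
  ext m
  rw [MvPolynomial.coeff_map, MvPolynomial.coeff_zero]
  rw [MvPolynomial.C_dvd_iff_dvd_coeff] at h3
  exact (ZMod.intCast_zmod_eq_zero_iff_dvd _ _).2 (h3 m)

end Struct

/-- The content of an integer polynomial: the gcd of its coefficients. -/
noncomputable def content {σ : Type*} (F : MvPolynomial σ ℤ) : ℕ :=
  F.support.gcd (fun m => (F.coeff m).natAbs)

theorem dvd_content {σ : Type*} (F : MvPolynomial σ ℤ) (d : ℕ) :
    d ∣ content F ↔ (MvPolynomial.C (d : ℤ) : MvPolynomial σ ℤ) ∣ F := by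
  rw [content, Finset.dvd_gcd_iff, MvPolynomial.C_dvd_iff_dvd_coeff]
  constructor
  · intro h m
    by_cases hm : m ∈ F.support
    · exact Int.natCast_dvd.2 (h m hm)
    · rw [MvPolynomial.notMem_support_iff.1 hm]
      exact dvd_zero _
  · intro h m _
    exact Int.natCast_dvd.1 (h m)

theorem content_ne_zero {σ : Type*} {F : MvPolynomial σ ℤ} (hF : F ≠ 0) : content F ≠ 0 := by
  intro h
  have h1 := (dvd_content F 0).1 (by rw [h])
  rw [Nat.cast_zero, map_zero, zero_dvd_iff] at h1
  exact hF h1

theorem val_content {σ : Type*} {Ω : Type*} [Field Ω] {ι : MvPolynomial σ ℤ →+* Ω} {p : ℕ}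
    [Fact p.Prime] {V : ValuationSubring Ω} (hV : ∀ F, ι F ∈ V)
    (hv : ∀ F, (V.valuation (ι F) < 1 ↔ (MvPolynomial.C (p : ℤ) : MvPolynomial σ ℤ) ∣ F))
    {F : MvPolynomial σ ℤ} (hF : F ≠ 0) :
    V.valuation (ι F) = V.valuation (p : Ω) ^ ((content F).factorization p) := by
  have hc := content_ne_zero hF
  set m := (content F).factorization p with hm
  obtain ⟨G, hG⟩ := (dvd_content F (p ^ m)).1 (Nat.ordProj_dvd _ _)
  have h1 : ¬ (MvPolynomial.C (p : ℤ) : MvPolynomial σ ℤ) ∣ G := by
    rintro ⟨G', hG'⟩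
    have h2 : p ^ (m + 1) ∣ content F := by
      rw [dvd_content]
      refine ⟨G', ?_⟩
      rw [hG, hG', ← mul_assoc, ← map_mul]
      push_cast
      rw [pow_succ]
    exact Nat.pow_succ_factorization_not_dvd hc Fact.out h2
  have h3 : V.valuation (ι G) = 1 := by
    refine le_antisymm ((ValuationSubring.valuation_le_one_iff V _).2 (hV G)) ?_
    rw [← not_lt, hv]
    exact h1
  have h4 : ι (MvPolynomial.C (((p ^ m : ℕ)) : ℤ)) = (p : Ω) ^ m := by
    push_cast
    rw [map_pow, map_natCast, map_pow, map_natCast]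
  rw [hG, map_mul, map_mul, h3, mul_one, h4, map_pow]

end Q36.DDi
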