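import Mathlib

/-!
# Genericity: polynomials with many algebraically independent coefficients have no
multiple factors
-/

namespace Q36.DDi

open Polynomial

section TD
variable {F κ : Type*} [Field F] [Field κ] [Algebra F κ]

theorem td_core {ι : Type*} [Fintype ι] {x : ι → κ} (hx : AlgebraicIndependent F x)
    (S : Finset κ) (hS : ∀ i, x i ∈ Algebra.adjoin F (S : Set κ))
    (hc : S.card < Fintype.card ι) : False := by
  classical
  set T := Algebra.adjoin F (S : Set κ) with hT
  let x' : ι → T := fun i => ⟨x i, hS i⟩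
  have hx' : AlgebraicIndependent F x' := AlgebraicIndependent.of_comp T.val hx
  let S' : Set T := (fun t : T => (t : κ)) ⁻¹' (S : Set κ)
  have htop : Algebra.adjoin F S' = ⊤ := Algebra.adjoin_adjoin_coe_preimage
  have : Algebra.IsAlgebraic (Algebra.adjoin F S') T :=
    ⟨fun t => isAlgebraic_algebraMap
      (⟨t, by rw [htop]; trivial⟩ : Algebra.adjoin F S')⟩
  have h1 := Algebra.IsAlgebraic.trdeg_le_cardinalMk F S'
  have h2 := hx'.lift_cardinalMk_le_trdeg
  have h3 : Cardinal.mk S' ≤ S.card := by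
    have : Cardinal.mk S' ≤ Cardinal.mk (S : Set κ) := by
      refine Cardinal.mk_le_of_injective (f := fun t : S' => (⟨(t : T), t.2⟩ : (S : Set κ))) ?_
      intro t t' htt
      apply Subtype.ext
      apply Subtype.ext
      have h5 := congrArg (fun z : (S : Set κ) => (z : κ)) htt
      exact h5
    exact this.trans_eq Cardinal.mk_coe_finset
  have h4 : Cardinal.lift (Cardinal.mk ι) ≤ Cardinal.lift (S.card : Cardinal) :=
    h2.trans (Cardinal.lift_le.2 (h1.trans h3))
  rw [Cardinal.mk_fintype, Cardinal.lift_natCast, Cardinal.lift_natCast] at h4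
  have h5 : Fintype.card ι ≤ S.card := by exact_mod_cast h4
  omega

theorem td_dvd {ι : Type*} [Fintype ι] (G D : κ[X]) (M d : ℕ) (hG : G.natDegree ≤ M)
    (hD : D.Monic) (hd : D.natDegree = d) (T : Finset κ)
    (hT : ∀ j, D.coeff j ∈ Algebra.adjoin F (T : Set κ)) (hdvd : D ∣ G) (c : ι → ℕ)
    (hx : AlgebraicIndependent F (fun i => G.coeff (c i)))
    (hcard : T.card + (M + 1 - d) < Fintype.card ι) : False := by
  classical
  obtain ⟨Q, rfl⟩ := hdvd
  have hQ : ∀ j, M + 1 - d ≤ j → Q.coeff j = 0 := by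
    intro j hj
    by_cases hQ0 : Q = 0
    · rw [hQ0, coeff_zero]
    · apply coeff_eq_zero_of_natDegree_lt
      rw [hD.natDegree_mul' hQ0, hd] at hG
      omega
  set S : Finset κ := T ∪ (Finset.range (M + 1 - d)).image (fun j => Q.coeff j) with hS
  have hTS : Algebra.adjoin F (T : Set κ) ≤ Algebra.adjoin F (S : Set κ) :=
    Algebra.adjoin_mono (by rw [hS]; simp)
  have hQS : ∀ j, Q.coeff j ∈ Algebra.adjoin F (S : Set κ) := by
    intro j
    by_cases hj : M + 1 - d ≤ j
    · rw [hQ j hj]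
      exact zero_mem _
    · apply Algebra.subset_adjoin
      rw [hS, Finset.coe_union]
      right
      exact Finset.mem_coe.2 (Finset.mem_image_of_mem _ (Finset.mem_range.2 (by omega)))
  have hmem : ∀ j, (D * Q).coeff j ∈ Algebra.adjoin F (S : Set κ) := by
    intro j
    rw [coeff_mul]
    exact sum_mem (fun y _ => mul_mem (hTS (hT _)) (hQS _))
  refine td_core hx S (fun i => hmem _) (lt_of_le_of_lt ?_ hcard)
  calc S.card ≤ T.card + ((Finset.range (M + 1 - d)).image (fun j => Q.coeff j)).card :=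
        Finset.card_union_le _ _
    _ ≤ T.card + (M + 1 - d) := by
        have : ((Finset.range (M + 1 - d)).image (fun j => Q.coeff j)).card ≤ M + 1 - d := by
          simpa using Finset.card_image_le (s := Finset.range (M + 1 - d))
            (f := fun j => Q.coeff j)
        omega

theorem coeff_mem_of_map {A : Subalgebra F κ} (D : A[X]) (j : ℕ) :
    (D.map (algebraMap A κ)).coeff j ∈ A := by
  rw [coeff_map]
  exact (D.coeff j).2

/-- A power `(X - ρ)^m`, `m ≥ 3`, does not divide a polynomial of degree at most `M` with at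
least `M` algebraically independent coefficients. -/
theorem not_pow_dvd {ι : Type*} [Fintype ι] (G : κ[X]) (M m : ℕ) (hG : G.natDegree ≤ M)
    (c : ι → ℕ) (hx : AlgebraicIndependent F (fun i => G.coeff (c i)))
    (hcard : 1 + (M + 1 - m) < Fintype.card ι) (ρ : κ) : ¬ (X - C ρ) ^ m ∣ G := by
  intro h
  classical
  refine td_dvd (F := F) G ((X - C ρ) ^ m) M m hG ((monic_X_sub_C ρ).pow m)
    (by rw [(monic_X_sub_C ρ).natDegree_pow, natDegree_X_sub_C, mul_one]) {ρ} ?_ h c hx
    (by simpa using hcard)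
  intro j
  have hρ : ρ ∈ Algebra.adjoin F (({ρ} : Finset κ) : Set κ) :=
    Algebra.subset_adjoin (by simp)
  have h1 : (X - C ρ) ^ m = ((X - C (⟨ρ, hρ⟩ : Algebra.adjoin F (({ρ} : Finset κ) : Set κ))) ^
      m).map (algebraMap _ κ) := by
    rw [Polynomial.map_pow, Polynomial.map_sub, map_X, map_C]
    rfl
  rw [h1]
  exact coeff_mem_of_map _ _

/-- `(X - ρ)^2 (X - σ)^2` does not divide such a polynomial. -/
theorem not_sq_sq_dvd {ι : Type*} [Fintype ι] (G : κ[X]) (M : ℕ) (hG : G.natDegree ≤ M)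
    (c : ι → ℕ) (hx : AlgebraicIndependent F (fun i => G.coeff (c i)))
    (hcard : 2 + (M + 1 - 4) < Fintype.card ι) {ρ σ : κ} (hne : ρ ≠ σ)
    (h1 : (X - C ρ) ^ 2 ∣ G) (h2 : (X - C σ) ^ 2 ∣ G) : False := by
  classical
  have hcop : IsCoprime ((X - C ρ) ^ 2) ((X - C σ) ^ 2) := by
    apply IsCoprime.pow
    exact isCoprime_X_sub_C_of_isUnit_sub (sub_ne_zero.2 hne).isUnit
  have h := hcop.mul_dvd h1 h2
  refine td_dvd (F := F) G ((X - C ρ) ^ 2 * (X - C σ) ^ 2) M 4 hG
    (((monic_X_sub_C ρ).pow 2).mul ((monic_X_sub_C σ).pow 2)) ?_ {ρ, σ} ?_ h c hx ?_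
  · rw [((monic_X_sub_C ρ).pow 2).natDegree_mul ((monic_X_sub_C σ).pow 2),
      (monic_X_sub_C ρ).natDegree_pow, (monic_X_sub_C σ).natDegree_pow, natDegree_X_sub_C,
      natDegree_X_sub_C]
  · intro j
    have hρ : ρ ∈ Algebra.adjoin F (({ρ, σ} : Finset κ) : Set κ) :=
      Algebra.subset_adjoin (by simp)
    have hσ : σ ∈ Algebra.adjoin F (({ρ, σ} : Finset κ) : Set κ) :=
      Algebra.subset_adjoin (by simp)
    have h1 : (X - C ρ) ^ 2 * (X - C σ) ^ 2 =
        ((X - C (⟨ρ, hρ⟩ : Algebra.adjoin F (({ρ, σ} : Finset κ) : Set κ))) ^ 2 *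
          (X - C (⟨σ, hσ⟩ : Algebra.adjoin F (({ρ, σ} : Finset κ) : Set κ))) ^ 2).map
          (algebraMap _ κ) := by
      rw [Polynomial.map_mul, Polynomial.map_pow, Polynomial.map_sub, map_X, map_C,
        Polynomial.map_pow, Polynomial.map_sub, map_X, map_C]
      rfl
    rw [h1]
    exact coeff_mem_of_map _ _
  · have : ({ρ, σ} : Finset κ).card ≤ 2 := Finset.card_le_two
    omega

end TD

/-! ### Double roots -/

theorem sq_dvd_of_eval {R : Type*} [CommRing R] {f : R[X]} {r : R} (h0 : f.eval r = 0)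
    (h1 : (derivative f).eval r = 0) : (X - C r) ^ 2 ∣ f := by
  obtain ⟨q, rfl⟩ := dvd_iff_isRoot.2 h0
  have h2 : q.eval r = 0 := by
    simpa [derivative_mul] using h1
  obtain ⟨w, rfl⟩ := dvd_iff_isRoot.2 h2
  exact ⟨w, by ring⟩

end Q36.DDi
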