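import Pool.Agent.Q36.DDi.Disc
import Pool.Agent.Q36.DDi.Gen

/-!
# Genericity of critical points and critical values
-/

namespace Q36.DDi

open Polynomial

theorem card_ne {n k : ℕ} (hk : k ≤ n) :
    Fintype.card {i : Fin (n + 1) // (i : ℕ) ≠ k} = n := by
  have h1 : Fintype.card {i : Fin (n + 1) // i ≠ ⟨k, by omega⟩} = n := by
    rw [Fintype.card_subtype_compl]
    simp
  have h2 : ∀ i : Fin (n + 1), ((i : ℕ) ≠ k) ↔ (i ≠ ⟨k, by omega⟩) := by
    intro i
    rw [ne_eq, ne_eq, Fin.ext_iff]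
  exact (Fintype.card_congr (Equiv.subtypeEquivRight h2)).trans h1

section
variable {p : ℕ} [Fact p.Prime] {κ : Type*} [Field κ] [Algebra (ZMod p) κ] {n k : ℕ}
  {a : ℕ → κ}

/-- Algebraic independence of the coefficients with index different from `k`. -/
def Ind (p n k : ℕ) [Fact p.Prime] {κ : Type*} [Field κ] [Algebra (ZMod p) κ] (a : ℕ → κ) :
    Prop :=
  AlgebraicIndependent (ZMod p) (fun i : {i : Fin (n + 1) // (i : ℕ) ≠ k} => a i.1)

theorem Ind.ne_zero (h : Ind p n k a) {i : ℕ} (hi : i ≤ n) (hik : i ≠ k) : a i ≠ 0 :=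
  AlgebraicIndependent.ne_zero h ⟨⟨i, by omega⟩, hik⟩

theorem Ind.gp (h : Ind p n k a) : AlgebraicIndependent (ZMod p)
    (fun i : {i : Fin (n + 1) // (i : ℕ) ≠ k} => (gp n k a).coeff i.1) := by
  have : (fun i : {i : Fin (n + 1) // (i : ℕ) ≠ k} => (DDi.gp n k a).coeff i.1) =
      fun i => a i.1 := by
    funext i
    rw [gp_coeff, if_pos ⟨by omega, i.2⟩]
  rw [this]
  exact h

theorem Ind.Gp (h : Ind p n k a) (s : κ) : AlgebraicIndependent (ZMod p)
    (fun i : {i : Fin (n + 1) // (i : ℕ) ≠ k} => (Gp n k a s).coeff i.1) := by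
  have : (fun i : {i : Fin (n + 1) // (i : ℕ) ≠ k} => (DDi.Gp n k a s).coeff i.1) =
      fun i => (DDi.gp n k a).coeff i.1 := by
    funext i
    rw [Gp_coeff _ _ _ _ i.2]
  rw [this]
  exact h.gp

theorem G1 (hn : 3 ≤ n) (hk : k ≤ n) (h : Ind p n k a) (s : κ) {ρ σ : κ} (hne : ρ ≠ σ)
    (h1 : (X - C ρ) ^ 2 ∣ Gp n k a s) (h2 : (X - C σ) ^ 2 ∣ Gp n k a s) : False :=
  not_sq_sq_dvd (F := ZMod p) _ n (Gp_natDegree_le hk a s) _ (h.Gp s)
    (by rw [card_ne hk]; omega) hne h1 h2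

theorem G2 (hn : 3 ≤ n) (hk : k ≤ n) (h : Ind p n k a) (s ρ : κ) :
    ¬ (X - C ρ) ^ 3 ∣ Gp n k a s :=
  not_pow_dvd (F := ZMod p) _ n 3 (Gp_natDegree_le hk a s) _ (h.Gp s)
    (by rw [card_ne hk]; omega) ρ

end

section Two
variable {κ : Type*} [Field κ] [Algebra (ZMod 2) κ] {n k : ℕ} {a : ℕ → κ}

theorem G3 (hn : 3 ≤ n) (hk : k ≤ n) (h : Ind 2 n k a) {ρ : κ} (hρ : ρ ≠ 0) :
    ¬ (X - C ρ) ^ 3 ∣ hp n k a := by
  intro hdvd
  have hchar : CharP κ 2 := charP_of_injective_algebraMap (algebraMap (ZMod 2) κ).injective 2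
  set ε : ℕ := (k + 1) % 2 with hε
  have hε1 : ε ≤ 1 := by omega
  set M : ℕ := (n - ε) / 2 with hM
  have hM1 : 1 ≤ M := by omega
  set H : κ[X] := ∑ j ∈ Finset.range (M + 1), C (a (2 * j + ε)) * X ^ j with hH
  have hHc : ∀ j, H.coeff j = if j ≤ M then a (2 * j + ε) else 0 := by
    intro j
    rw [hH, finsetSum_coeff]
    simp only [coeff_C_mul, coeff_X_pow, mul_ite, mul_one, mul_zero]
    rw [Finset.sum_ite_eq]
    simp only [Finset.mem_range, Nat.lt_succ_iff]
  have hfac : hp n k a = X ^ ε * expand κ 2 H := by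
    ext i
    rw [hp_coeff, gp_coeff, coeff_X_pow_mul', coeff_expand (by norm_num)]
    by_cases hpar : (i + k) % 2 = 0
    · -- same parity
      have h1 : ((i : κ) - k) = 0 := by
        have : (i : κ) = (k : κ) := by
          rw [CharP.cast_eq_iff_mod_eq κ 2]
          omega
        rw [this, sub_self]
      rw [h1, zero_mul]
      split_ifs with h2 h3
      · omega
      · rfl
      · rfl
    · have h1 : ((i : κ) - k) = 1 := by
        have : (i : κ) = ((k + 1 : ℕ) : κ) := by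
          rw [CharP.cast_eq_iff_mod_eq κ 2]
          omega
        rw [this]
        push_cast
        ring
      rw [h1, one_mul, if_pos (by omega : ε ≤ i), if_pos (by omega : 2 ∣ i - ε), hHc]
      have h4 : 2 * ((i - ε) / 2) + ε = i := by omega
      rw [h4]
      by_cases hin : i ≤ n
      · rw [if_pos ⟨hin, by omega⟩, if_pos (by omega)]
      · rw [if_neg (by omega), if_neg (by omega)]
  have hsq : expand κ 2 (X - C (ρ ^ 2)) = (X - C ρ) ^ 2 := by
    rw [map_sub, expand_X, expand_C, map_pow]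
    have : (2 : κ[X]) = 0 := by
      have h3 : (2 : κ) = 0 := by exact_mod_cast CharP.cast_eq_zero κ 2
      rw [← map_ofNat (C : κ →+* κ[X]) 2, h3, C_0]
    linear_combination (X * C ρ - C ρ ^ 2) * this
  have hroot : ∀ f : κ[X], (X - C ρ) ∣ expand κ 2 f → (X - C (ρ ^ 2)) ∣ f := by
    intro f hf
    rw [dvd_iff_isRoot, IsRoot, expand_eval] at hf
    exact dvd_iff_isRoot.2 hf
  have h1 : (X - C ρ) ^ 3 ∣ expand κ 2 H := by
    rw [hfac] at hdvd
    refine IsCoprime.dvd_of_dvd_mul_left ?_ hdvd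
    apply IsCoprime.pow
    have : IsCoprime (X - C ρ) (X - C (0 : κ)) :=
      isCoprime_X_sub_C_of_isUnit_sub (by rw [sub_zero]; exact hρ.isUnit)
    rwa [C_0, sub_zero] at this
  obtain ⟨H1, hH1⟩ := hroot H ((dvd_pow_self _ (by norm_num)).trans h1)
  have h2 : (X - C ρ) ∣ expand κ 2 H1 := by
    rw [hH1, map_mul, hsq, show (3 : ℕ) = 2 + 1 from rfl, pow_succ] at h1
    exact (mul_dvd_mul_iff_left (pow_ne_zero 2 (X_sub_C_ne_zero ρ))).1 h1
  obtain ⟨H2, hH2⟩ := hroot H1 h2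
  have h3 : (X - C (ρ ^ 2)) ^ 2 ∣ H := ⟨H2, by rw [hH1, hH2]; ring⟩
  let c : Fin (M + 1) → ℕ := fun j => j
  let e : Fin (M + 1) → {i : Fin (n + 1) // (i : ℕ) ≠ k} := fun j =>
    ⟨⟨2 * j + ε, by have := j.2; omega⟩, by simp only; omega⟩
  have he : Function.Injective e := by
    intro j j' hjj
    have := congrArg (fun z : {i : Fin (n + 1) // (i : ℕ) ≠ k} => (z.1 : ℕ)) hjj
    simp only [e] at this
    apply Fin.ext
    omega
  have hind : AlgebraicIndependent (ZMod 2) (fun j : Fin (M + 1) => H.coeff (c j)) := by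
    have h4 := AlgebraicIndependent.comp h e he
    have h5 : (fun j : Fin (M + 1) => H.coeff (c j)) =
        (fun i : {i : Fin (n + 1) // (i : ℕ) ≠ k} => a i.1) ∘ e := by
      funext j
      simp only [c, e, Function.comp]
      rw [hHc, if_pos (by have := j.2; omega)]
    rw [h5]
    exact h4
  refine not_pow_dvd (F := ZMod 2) H M 2 ?_ c hind ?_ (ρ ^ 2) h3
  · rw [natDegree_le_iff_coeff_eq_zero]
    intro i hi
    rw [hHc, if_neg (by omega)]
  · rw [Fintype.card_fin]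
    omega

end Two

end Q36.DDi
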