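import Pool.Agent.Q36.DDi.Gen2

/-!
# Reduction of a split polynomial over a valuation ring
-/

namespace Q36.DDi

open Polynomial IsLocalRing

section Basic
variable {Ω : Type*} [Field Ω] {V : ValuationSubring Ω}

theorem res_eq_zero_iff (a : V) : residue V a = 0 ↔ V.valuation (a : Ω) < 1 := by
  rw [residue_eq_zero_iff, V.valuation_lt_one_iff]

theorem res_ne_zero_iff (a : V) : residue V a ≠ 0 ↔ V.valuation (a : Ω) = 1 := by
  rw [ne_eq, res_eq_zero_iff, not_lt]
  exact ⟨fun h => le_antisymm (V.valuation_le_one a) h, fun h => h.ge⟩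

/-- An element of valuation at most one as an element of the valuation ring (else `0`). -/
noncomputable def toV (V : ValuationSubring Ω) (x : Ω) : V := by
  classical
  exact if h : V.valuation x ≤ 1 then ⟨x, (V.valuation_le_one_iff x).1 h⟩ else 0

theorem coe_toV {x : Ω} (h : V.valuation x ≤ 1) : (toV V x : Ω) = x := by
  rw [toV, dif_pos h]

theorem res_toV_ne {x : Ω} (h : V.valuation x = 1) : residue V (toV V x) ≠ 0 := by
  rw [res_ne_zero_iff, coe_toV h.le, h]

theorem res_toV_eq {x : Ω} (h : V.valuation x < 1) : residue V (toV V x) = 0 := by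
  rw [res_eq_zero_iff, coe_toV h.le]
  exact h

open Classical in
/-- The normalised linear factor at `x`. -/
noncomputable def lin (V : ValuationSubring Ω) (x : Ω) : V[X] :=
  if V.valuation x ≤ 1 then X - C (toV V x) else 1 - C (toV V x⁻¹) * X

open Classical in
/-- The scalar of the linear factor at `x`. -/
noncomputable def scal (V : ValuationSubring Ω) (x : Ω) : Ω :=
  if V.valuation x ≤ 1 then 1 else -x

theorem inv_lt {x : Ω} (h : 1 < V.valuation x) : V.valuation x⁻¹ < 1 := by
  rw [map_inv₀]
  exact inv_lt_one_of_one_lt₀ h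

theorem lin_map {x : Ω} : (X - C x : Polynomial Ω) = C (scal V x) * (lin V x).map (algebraMap V Ω) := by
  classical
  by_cases h : V.valuation x ≤ 1
  · rw [scal, lin, if_pos h, if_pos h, Polynomial.map_sub, map_X, map_C, C_1, one_mul]
    have : algebraMap V Ω (toV V x) = x := coe_toV h
    rw [this]
  · have h' : 1 < V.valuation x := not_le.1 h
    have hx : x ≠ 0 := by
      rintro rfl
      rw [map_zero] at h'
      exact absurd h' (by simp)
    rw [scal, lin, if_neg h, if_neg h, Polynomial.map_sub, Polynomial.map_mul, map_X, map_C,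
      Polynomial.map_one]
    have : algebraMap V Ω (toV V x⁻¹) = x⁻¹ := coe_toV (inv_lt h').le
    rw [this, mul_sub, ← mul_assoc, ← C_mul, mul_one, C_neg]
    have h2 : -x * x⁻¹ = -1 := by field_simp
    rw [h2, C_neg, C_1]
    ring

open Classical in
theorem lin_res (x : Ω) : (lin V x).map (residue V) =
    (if V.valuation x < 1 then X else 1) *
      (if V.valuation x = 1 then X - C (residue V (toV V x)) else 1) := by
  rcases lt_trichotomy (V.valuation x) 1 with h | h | h
  · rw [lin, if_pos h.le, if_pos h, if_neg h.ne, mul_one, Polynomial.map_sub, map_X, map_C,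
      res_toV_eq h, C_0, sub_zero]
  · rw [lin, if_pos h.le, if_neg h.not_lt, if_pos h, one_mul, Polynomial.map_sub, map_X, map_C]
  · rw [lin, if_neg (not_le.2 h), if_neg h.le.not_gt, if_neg h.ne', mul_one,
      Polynomial.map_sub, Polynomial.map_mul, map_X, map_C, Polynomial.map_one,
      res_toV_eq (inv_lt h), C_0, zero_mul, sub_zero]

variable {N : ℕ} (V)

open Classical in
/-- Indices of small roots. -/
noncomputable def I0 (r : Fin N → Ω) : Finset (Fin N) :=
  Finset.univ.filter (fun i => V.valuation (r i) < 1)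

open Classical in
/-- Indices of unit roots. -/
noncomputable def IU (r : Fin N → Ω) : Finset (Fin N) :=
  Finset.univ.filter (fun i => V.valuation (r i) = 1)

open Classical in
/-- Indices of large roots. -/
noncomputable def I1 (r : Fin N → Ω) : Finset (Fin N) :=
  Finset.univ.filter (fun i => 1 < V.valuation (r i))

variable {V}

theorem mem_I0 {r : Fin N → Ω} {i : Fin N} : i ∈ I0 V r ↔ V.valuation (r i) < 1 := by
  simp [I0]
theorem mem_IU {r : Fin N → Ω} {i : Fin N} : i ∈ IU V r ↔ V.valuation (r i) = 1 := by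
  simp [IU]
theorem mem_I1 {r : Fin N → Ω} {i : Fin N} : i ∈ I1 V r ↔ 1 < V.valuation (r i) := by
  simp [I1]

theorem prod_lin_res (r : Fin N → Ω) : (∏ i, lin V (r i)).map (residue V) =
    X ^ (I0 V r).card * ∏ i ∈ IU V r, (X - C (residue V (toV V (r i)))) := by
  classical
  rw [Polynomial.map_prod]
  simp only [lin_res]
  rw [Finset.prod_mul_distrib, ← Finset.prod_filter, ← Finset.prod_filter, Finset.prod_const]
  rfl

/-- The product over all indices splits. -/
theorem prod_split {M : Type*} [CommMonoid M] (r : Fin N → Ω) (f : Fin N → M) :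
    ∏ i, f i = (∏ i ∈ I0 V r, f i) * (∏ i ∈ IU V r, f i) * ∏ i ∈ I1 V r, f i := by
  classical
  have hU : (Finset.univ : Finset (Fin N)) = I0 V r ∪ IU V r ∪ I1 V r := by
    ext i
    simp only [Finset.mem_univ, Finset.mem_union, mem_I0, mem_IU, mem_I1, true_iff]
    rcases lt_trichotomy (V.valuation (r i)) 1 with h | h | h
    · exact Or.inl (Or.inl h)
    · exact Or.inl (Or.inr h)
    · exact Or.inr h
  rw [hU, Finset.prod_union, Finset.prod_union]
  · rw [Finset.disjoint_left]
    intro i h1 h2
    rw [mem_I0] at h1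
    rw [mem_IU] at h2
    exact h1.ne h2
  · rw [Finset.disjoint_left]
    intro i h1 h2
    rw [Finset.mem_union, mem_I0, mem_IU] at h1
    rw [mem_I1] at h2
    rcases h1 with h1 | h1
    · exact h1.le.not_gt h2
    · exact h2.ne' h1

theorem card_split (r : Fin N → Ω) : N = (I0 V r).card + (IU V r).card + (I1 V r).card := by
  have h := prod_split (M := Multiplicative ℕ) (V := V) r (fun _ => Multiplicative.ofAdd 1)
  simp only [Finset.prod_const, ← ofAdd_nsmul, ← ofAdd_add, Finset.card_univ, Fintype.card_fin,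
    smul_eq_mul, mul_one] at h
  exact h

end Basic

section Fac
variable {Ω : Type*} [Field Ω] {V : ValuationSubring Ω} {N n k δ : ℕ} {α : ℕ → V}

/-- The factorization of `h` over the valuation ring. -/
theorem hp_fac {lc : Ω} {r : Fin N → Ω} (hk : k < n) (hα : residue V (α (k + 1)) ≠ 0)
    (hh : hp n k (fun i => (α i : Ω)) = C lc * X ^ δ * ∏ i, (X - C (r i))) :
    ∃ c : V, IsUnit c ∧ hp n k α = C c * (X ^ δ * ∏ i, lin V (r i)) := by
  classical
  set Q : V[X] := X ^ δ * ∏ i, lin V (r i) with hQ
  set c0 : Ω := lc * ∏ i, scal V (r i) with hc0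
  have h1 : hp n k (fun i => (α i : Ω)) = C c0 * Q.map (algebraMap V Ω) := by
    rw [hh, hQ, Polynomial.map_mul, Polynomial.map_pow, map_X, Polynomial.map_prod]
    have : ∏ i, (X - C (r i)) = C (∏ i, scal V (r i)) *
        ∏ i, (lin V (r i)).map (algebraMap V Ω) := by
      rw [map_prod, ← Finset.prod_mul_distrib]
      exact Finset.prod_congr rfl (fun i _ => lin_map)
    rw [this, hc0, C_mul]
    ring
  have h2 : (hp n k α).map (algebraMap V Ω) = C c0 * Q.map (algebraMap V Ω) := by
    rw [hp_map, ← h1]
    rfl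
  -- a unit coefficient of `Q`
  set m : ℕ := δ + ((I0 V r).card + (IU V r).card) with hm
  have hQres : Q.map (residue V) =
      X ^ (δ + (I0 V r).card) * ∏ i ∈ IU V r, (X - C (residue V (toV V (r i)))) := by
    rw [hQ, Polynomial.map_mul, Polynomial.map_pow, map_X, prod_lin_res, pow_add]
    ring
  have hQm : residue V (Q.coeff m) = 1 := by
    rw [← coeff_map, hQres]
    have hmon : (X ^ (δ + (I0 V r).card) *
        ∏ i ∈ IU V r, (X - C (residue V (toV V (r i))))).Monic :=
      (monic_X_pow _).mul (monic_prod_of_monic _ _ (fun i _ => monic_X_sub_C _))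
    have hdeg : (X ^ (δ + (I0 V r).card) *
        ∏ i ∈ IU V r, (X - C (residue V (toV V (r i))))).natDegree = m := by
      rw [(monic_X_pow _).natDegree_mul (monic_prod_of_monic _ _ (fun i _ => monic_X_sub_C _)),
        natDegree_X_pow, natDegree_prod_of_monic _ _ (fun i _ => monic_X_sub_C _)]
      simp only [natDegree_X_sub_C, Finset.sum_const, smul_eq_mul, mul_one]
      omega
    rw [← hdeg]
    exact hmon.coeff_natDegree
  have hQu : IsUnit (Q.coeff m) := by
    by_contra hcon
    have := (residue_eq_zero_iff (Q.coeff m)).2 hcon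
    rw [this] at hQm
    exact zero_ne_one hQm
  have hcm : algebraMap V Ω ((hp n k α).coeff m) = c0 * algebraMap V Ω (Q.coeff m) := by
    have := congrArg (fun f => f.coeff m) h2
    simpa using this
  obtain ⟨u, hu⟩ := hQu
  set c : V := (hp n k α).coeff m * (↑u⁻¹ : V) with hc
  have hcc : algebraMap V Ω c = c0 := by
    rw [hc, map_mul, hcm, mul_assoc, ← map_mul, ← hu, Units.mul_inv, map_one, mul_one]
  have h3 : hp n k α = C c * Q := by
    apply map_injective (algebraMap V Ω) (FaithfulSMul.algebraMap_injective V Ω)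
    rw [h2]
    conv_rhs => rw [Polynomial.map_mul, map_C, hcc]
  refine ⟨c, ?_, h3⟩
  have h4 : (hp n k α).coeff (k + 1) = α (k + 1) := by
    rw [hp_coeff, gp_coeff, if_pos ⟨by omega, by omega⟩]
    push_cast
    ring
  have h5 : IsUnit (α (k + 1)) := by
    by_contra hcon
    exact hα ((residue_eq_zero_iff _).2 hcon)
  rw [h3, coeff_C_mul] at h4
  rw [← h4] at h5
  exact isUnit_of_mul_isUnit_left h5

theorem hp_res {lc : Ω} {r : Fin N → Ω} (hk : k < n) (hα : residue V (α (k + 1)) ≠ 0)
    (hh : hp n k (fun i => (α i : Ω)) = C lc * X ^ δ * ∏ i, (X - C (r i))) :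
    ∃ c : ResidueField V, c ≠ 0 ∧ hp n k (fun i => residue V (α i)) = C c *
      (X ^ (δ + (I0 V r).card) * ∏ i ∈ IU V r, (X - C (residue V (toV V (r i))))) := by
  obtain ⟨c, hc, h⟩ := hp_fac hk hα hh
  refine ⟨residue V c, ?_, ?_⟩
  · intro h0
    exact (residue_eq_zero_iff c).1 h0 hc
  · have h1 := congrArg (Polynomial.map (residue V)) h
    rw [hp_map, Polynomial.map_mul, map_C, Polynomial.map_mul, Polynomial.map_pow, map_X,
      prod_lin_res] at h1
    rw [h1, pow_add]
    ring

end Fac

end Q36.DDi
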