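import Pool.Agent.Q36.DDi.Roots

/-!
# The valuation of the double discriminant
-/

namespace Q36.DDi

open Polynomial IsLocalRing

theorem IsSign.val {Ω : Type*} [Field Ω] {V : ValuationSubring Ω} {e : Ω} (h : IsSign e) :
    V.valuation e = 1 := by
  rcases h with rfl | rfl
  · exact map_one _
  · rw [Valuation.map_neg, map_one]

section
variable {Ω : Type*} [Field Ω] [IsAlgClosed Ω] [CharZero Ω] {n k : ℕ}
  (ι : MvPolynomial {i : Fin (n + 1) // (i : ℕ) ≠ k} ℤ →+* Ω)

theorem val_DD (hn : 3 ≤ n) (hk : k < n) (hι : Function.Injective ι) (p : ℕ) [Fact p.Prime]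
    (V : ValuationSubring Ω) (hV : ∀ F, ι F ∈ V)
    (hv : ∀ F, (V.valuation (ι F) < 1 ↔ (MvPolynomial.C (p : ℤ) : MvPolynomial _ ℤ) ∣ F))
    [Algebra (ZMod p) (ResidueField V)] :
    V.valuation (ι (DD n k)) =
      (if p = 2 then V.valuation (2 : Ω) ^ 2 else 1) ^
        (n - (if k = 0 then 1 else 0) - (if k ≠ 0 ∧ p ∣ k then 1 else 0) -
          (if p ∣ n - k then 1 else 0)) *
      (if (k ≠ 0 ∧ p ∣ k) ∧ p ∣ n - k then
        max (V.valuation (k : Ω) ^ k) (V.valuation ((n - k : ℕ) : Ω) ^ (n - k)) ^ 2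
      else 1) := by
  set α : ℕ → V := fun i => if h : i < n + 1 ∧ i ≠ k then
    ⟨ι (MvPolynomial.X ⟨⟨i, h.1⟩, h.2⟩), hV _⟩ else 0 with hα
  have hαa : (fun i => (α i : Ω)) = av n k ι := by
    funext i
    simp only [hα]
    rw [av]
    split_ifs
    · rfl
    · rfl
  have hvX : ∀ i, V.valuation (ι (MvPolynomial.X i)) = 1 := by
    intro i
    refine le_antisymm ((ValuationSubring.valuation_le_one_iff V _).2 (hV _)) ?_
    rw [← not_lt, hv]
    intro h1
    rw [MvPolynomial.C_dvd_iff_dvd_coeff] at h1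
    have h2 := h1 (Finsupp.single i 1)
    rw [MvPolynomial.coeff_X, if_pos rfl] at h2
    have h3 := Int.natCast_dvd.1 h2
    rw [Int.natAbs_one, Nat.dvd_one] at h3
    exact (Fact.out : p.Prime).one_lt.ne' h3
  have hva : ∀ i, i ≤ n → i ≠ k → V.valuation (av n k ι i) = 1 := by
    intro i hi hik
    rw [av_eq ι (by omega) hik]
    exact hvX _
  have hane : ∀ i, i ≤ n → i ≠ k → av n k ι i ≠ 0 := by
    intro i hi hik h0
    have := hva i hi hik
    rw [h0, map_zero] at this
    exact zero_ne_one this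
  obtain ⟨N, r, hN, hr, hh⟩ := exists_roots hn hk hane
  have hind : Ind p n k (fun i => residue V (α i)) := by
    have h1 := ind_of_val (p := p) hV hv
    have h2 : (fun i : {i : Fin (n + 1) // (i : ℕ) ≠ k} => residue V (α i.1)) =
        fun i => residue V ⟨ι (MvPolynomial.X i), hV _⟩ := by
      funext i
      simp only [hα]
      rw [dif_pos ⟨i.1.2, i.2⟩]
    unfold Ind
    rw [h2]
    exact h1
  have H : Hyp p V n k N α r := by
    refine ⟨hn, hk, hind, hN, hr, ?_⟩
    have h1 : (α n : Ω) = av n k ι n := congrFun hαa n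
    rw [hαa, h1]
    exact hh
  have hall := H.prod_all
  have hcard := card_split (V := V) r
  rw [H.card_I0, H.card_I1] at hcard
  have hu : (IU V r).card = n - (if k = 0 then 1 else 0) - (if k ≠ 0 ∧ p ∣ k then 1 else 0) -
      (if p ∣ n - k then 1 else 0) := by omega
  rw [hu] at hall
  rw [← hall]
  -- the polynomial
  obtain ⟨e, he, hQ⟩ := discr_Fp (by omega) hk (hane n le_rfl (by omega)) hN r hr hh
  set c : Ω := ((n : Ω) - k) * av n k ι n with hc
  set a0 : Ω := if k = 0 then 1 else av n k ι 0 with ha0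
  have hva0 : V.valuation a0 = 1 := by
    rw [ha0]
    split_ifs with h
    · exact map_one _
    · exact hva 0 (by omega) (by omega)
  have hvn := hva n le_rfl (by omega)
  have hprodne : ∏ i, r i ≠ 0 := Finset.prod_ne_zero_iff.2 fun i _ => hr i
  have hnk : ((n : Ω) - k) = ((n - k : ℕ) : Ω) := by
    rw [Nat.cast_sub hk.le]
  have hnk0 : ((n - k : ℕ) : Ω) ≠ 0 := by
    exact_mod_cast (by omega : n - k ≠ 0)
  have hcne : c ≠ 0 := by
    rw [hc, hnk]
    exact mul_ne_zero hnk0 (hane n le_rfl (by omega))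
  have hene : e ≠ 0 := by
    intro h0
    have := he.sq
    rw [h0, mul_zero] at this
    exact zero_ne_one this
  have ha0ne : av n k ι n * a0 ≠ 0 := by
    intro h0
    have : V.valuation (av n k ι n * a0) = 0 := by rw [h0, map_zero]
    rw [map_mul, hvn, hva0, mul_one] at this
    exact one_ne_zero this
  set L : Ω := e * c ^ n * (∏ i, r i) ^ k / (av n k ι n * a0) with hL
  have hLne : L ≠ 0 := div_ne_zero (mul_ne_zero (mul_ne_zero hene (pow_ne_zero _ hcne))
    (pow_ne_zero _ hprodne)) ha0ne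
  have hQ' : (Fp n k (av n k ι)).discr = C L * ∏ i, (X - C (cv n k α (r i))) := by
    apply mul_left_cancel₀ (C_ne_zero.2 ha0ne)
    rw [hQ, ← mul_assoc, ← C_mul, hL, mul_div_cancel₀ _ ha0ne]
    congr 1
    apply Finset.prod_congr rfl
    intro i _
    rw [cv, hαa]
  have hNpos : 0 < N := by
    split_ifs at hN <;> omega
  have hmap := map_D ι hk hι
  have hnat : (asPoly n k (genPoly n).discr).natDegree = N := by
    rw [← natDegree_map_eq_of_injective hι, hmap, hQ', natDegree_split hLne]
  have hDD : ι (DD n k) = (C L * ∏ i, (X - C (cv n k α (r i)))).discr := by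
    rw [← hQ', ← hmap, DD, discr_map ι _ (by omega)]
    rw [ne_eq, map_eq_zero_iff ι hι, leadingCoeff_eq_zero]
    intro h0
    rw [h0, natDegree_zero] at hnat
    omega
  obtain ⟨e', he', hdisc⟩ := discr_split hNpos hLne (fun i => cv n k α (r i))
  rw [hDD, hdisc, map_mul, map_mul, he'.val, one_mul, map_pow, map_prod]
  have hLval : V.valuation L = V.valuation (k : Ω) ^ k *
      V.valuation ((n - k : ℕ) : Ω) ^ (n - k) := by
    rw [hL, map_div₀, map_mul, map_mul, map_mul, he.val, hvn, hva0, one_mul, one_mul, div_one,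
      map_pow, map_pow, hc, hnk, map_mul, hvn, mul_one]
    by_cases hk0 : k = 0
    · rw [hk0]
      simp
    · have h1 := congrArg (fun f => f.coeff 0) hh
      rw [hp_coeff, gp_coeff, if_pos ⟨by omega, by omega⟩, if_neg hk0, pow_zero, mul_one,
        coeff_C_mul, coeff_zero_eq_eval_zero (∏ i, (X - C (r i))), eval_prod] at h1
      simp only [Nat.cast_zero, zero_sub, eval_sub, eval_X, eval_C] at h1
      have h2 := congrArg V.valuation h1
      rw [map_mul, Valuation.map_neg, hva 0 (by omega) (by omega), mul_one, map_mul, map_prod] at h2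
      simp only [Valuation.map_neg] at h2
      rw [← map_prod, hc, hnk, map_mul, hvn, mul_one] at h2
      rw [h2, mul_pow]
      have h3 : V.valuation ((n - k : ℕ) : Ω) ^ n = V.valuation ((n - k : ℕ) : Ω) ^ k *
          V.valuation ((n - k : ℕ) : Ω) ^ (n - k) := by
        rw [← pow_add]
        congr 1
        omega
      rw [h3, mul_right_comm]
  rw [hLval, mul_comm]
  congr 1
  apply Finset.prod_congr rfl
  intro i _
  rw [map_prod]

end

end Q36.DDi
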