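import Pool.Agent.Q36.DDi.Fld

/-!
# The double discriminant over an algebraically closed field
-/

namespace Q36.DDi

open Polynomial IsLocalRing

theorem exists_roots {Ω : Type*} [Field Ω] [IsAlgClosed Ω] [CharZero Ω] {n k : ℕ} (hn : 3 ≤ n)
    (hk : k < n) {a : ℕ → Ω} (ha : ∀ i, i ≤ n → i ≠ k → a i ≠ 0) :
    ∃ (N : ℕ) (r : Fin N → Ω), N + (if k = 0 then 1 else 0) = n ∧ (∀ i, r i ≠ 0) ∧
      hp n k a = C (((n : Ω) - k) * a n) * X ^ (if k = 0 then 1 else 0) *
        ∏ i, (X - C (r i)) := by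
  have hcoeff : ∀ i, i ≤ n → i ≠ k → (hp n k a).coeff i ≠ 0 := by
    intro i hi hik
    rw [hp_coeff, gp_coeff, if_pos ⟨hi, hik⟩]
    refine mul_ne_zero (sub_ne_zero.2 ?_) (ha i hi hik)
    exact_mod_cast hik
  have hnat : (hp n k a).natDegree = n := hp_natDegree hk (ha n le_rfl (by omega))
  have hlc : (hp n k a).leadingCoeff = ((n : Ω) - k) * a n := by
    rw [leadingCoeff, hnat, hp_coeff, gp_coeff, if_pos ⟨le_rfl, by omega⟩]
  obtain ⟨q, hq⟩ : ∃ q : Polynomial Ω, hp n k a = q * X ^ (if k = 0 then 1 else 0) := by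
    by_cases hk0 : k = 0
    · refine ⟨derivative (gp n k a), ?_⟩
      rw [if_pos hk0, hp, hk0]
      simp only [Nat.cast_zero, C_0, zero_mul, sub_zero, pow_one]
      ring
    · exact ⟨hp n k a, by rw [if_neg hk0, pow_zero, mul_one]⟩
  set δ := (if k = 0 then 1 else 0) with hδ
  have hδ1 : δ ≤ n ∧ δ ≠ k := by
    by_cases hk0 : k = 0
    · rw [hδ, if_pos hk0]; omega
    · rw [hδ, if_neg hk0]; omega
  have hq0 : q.coeff 0 ≠ 0 := by
    have := hcoeff δ hδ1.1 hδ1.2
    rw [hq, coeff_mul_X_pow', if_pos le_rfl, Nat.sub_self] at this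
    exact this
  have hqne : q ≠ 0 := fun h => hq0 (by rw [h, coeff_zero])
  have hqlc : q.leadingCoeff = ((n : Ω) - k) * a n := by
    rw [← hlc, hq, leadingCoeff_mul_X_pow]
  have hqn : q.natDegree + δ = n := by
    rw [← hnat, hq, natDegree_mul_X_pow _ hqne]
  have hs : q.Splits := IsAlgClosed.splits q
  have h1 := hs.eq_prod_roots
  have h2 := hs.natDegree_eq_card_roots
  set l := q.roots.toList with hl
  have hlen : l.length = q.natDegree := by
    rw [h2, hl, Multiset.length_toList]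
  refine ⟨l.length, fun i => l.get i, by rw [hlen, hqn], fun i => ?_, ?_⟩
  · intro h0
    have h3 : (0 : Ω) ∈ q.roots := by
      rw [← Multiset.mem_toList, ← hl, ← h0]
      exact List.get_mem l i
    rw [mem_roots hqne, IsRoot, ← coeff_zero_eq_eval_zero] at h3
    exact hq0 h3
  · have h4 : ∏ i : Fin l.length, (X - C (l.get i)) = (q.roots.map (fun x => X - C x)).prod := by
      have h5 : (q.roots.map (fun x => (X - C x : Polynomial Ω))).prod =
          (l.map (fun x => X - C x)).prod := by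
        conv_lhs => rw [← Multiset.coe_toList q.roots]
        rw [Multiset.map_coe, Multiset.prod_coe]
      rw [h5, ← List.prod_ofFn]
      congr 1
      conv_rhs => rw [← List.ofFn_get l, List.map_ofFn]
      rfl
    rw [h4, hq]
    conv_lhs => rw [h1, hqlc]
    ring

/-! ### The definitions of the statement -/

/-- The generic polynomial `f(x) = a_0 + a_1 x + ... + a_n x^n`. -/
noncomputable def genPoly (n : ℕ) : (MvPolynomial (Fin (n + 1)) ℤ)[X] :=
  ∑ i : Fin (n + 1), C (MvPolynomial.X i) * X ^ (i : ℕ)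

/-- A polynomial in `a_0, ..., a_n` viewed as a polynomial in the single variable `a_k` with
coefficients in `ℤ[a_i : i ≠ k]`. -/
noncomputable def asPoly (n k : ℕ) : MvPolynomial (Fin (n + 1)) ℤ →+*
    (MvPolynomial {i : Fin (n + 1) // (i : ℕ) ≠ k} ℤ)[X] :=
  MvPolynomial.eval₂Hom (Int.castRingHom _)
    (fun i => if h : (i : ℕ) ≠ k then C (MvPolynomial.X ⟨i, h⟩) else X)

/-- The double discriminant `disc_{a_k} disc_x f`. -/
noncomputable def DD (n k : ℕ) : MvPolynomial {i : Fin (n + 1) // (i : ℕ) ≠ k} ℤ :=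
  (asPoly n k (genPoly n).discr).discr

theorem genPoly_coeff (n i : ℕ) : (genPoly n).coeff i =
    if h : i < n + 1 then MvPolynomial.X ⟨i, h⟩ else 0 := by
  rw [genPoly, finsetSum_coeff]
  simp only [coeff_C_mul, coeff_X_pow, mul_ite, mul_one, mul_zero]
  split_ifs with h
  · rw [Finset.sum_eq_single ⟨i, h⟩]
    · simp
    · intro j _ hj
      rw [if_neg]
      intro hij
      exact hj (Fin.ext hij.symm)
    · intro h1
      exact absurd (Finset.mem_univ _) h1
  · apply Finset.sum_eq_zero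
    intro j _
    rw [if_neg]
    have := j.2
    omega

theorem genPoly_natDegree (n : ℕ) : (genPoly n).natDegree = n := by
  apply le_antisymm
  · rw [natDegree_le_iff_coeff_eq_zero]
    intro i hi
    rw [genPoly_coeff, dif_neg (by omega)]
  · apply le_natDegree_of_ne_zero
    rw [genPoly_coeff, dif_pos (by omega)]
    exact MvPolynomial.X_ne_zero _

theorem genPoly_lc (n : ℕ) : (genPoly n).leadingCoeff = MvPolynomial.X (Fin.last n) := by
  rw [leadingCoeff, genPoly_natDegree, genPoly_coeff, dif_pos (by omega)]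
  rfl

theorem asPoly_X (n k : ℕ) (i : Fin (n + 1)) : asPoly n k (MvPolynomial.X i) =
    if h : (i : ℕ) ≠ k then C (MvPolynomial.X ⟨i, h⟩) else X := by
  rw [asPoly, MvPolynomial.coe_eval₂Hom, MvPolynomial.eval₂_X]

section Main
variable {Ω : Type*} [Field Ω] {n k : ℕ}
  (ι : MvPolynomial {i : Fin (n + 1) // (i : ℕ) ≠ k} ℤ →+* Ω)

/-- The generic coefficients. -/
noncomputable def av (n k : ℕ) (ι : MvPolynomial {i : Fin (n + 1) // (i : ℕ) ≠ k} ℤ →+* Ω)
    (i : ℕ) : Ω :=
  if h : i < n + 1 ∧ i ≠ k then ι (MvPolynomial.X ⟨⟨i, h.1⟩, h.2⟩) else 0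

theorem av_eq {i : ℕ} (h : i < n + 1) (h' : i ≠ k) :
    av n k ι i = ι (MvPolynomial.X ⟨⟨i, h⟩, h'⟩) := by
  rw [av, dif_pos ⟨h, h'⟩]

theorem genPoly_map (hk : k < n + 1) :
    (genPoly n).map ((mapRingHom ι).comp (asPoly n k)) = Fp n k (av n k ι) := by
  ext1 i
  rw [coeff_map, Fp_coeff, gp_coeff, genPoly_coeff, RingHom.comp_apply]
  by_cases h : i < n + 1
  · rw [dif_pos h, asPoly_X]
    by_cases h' : i = k
    · rw [dif_neg (by simpa using h'), if_neg (by omega), if_pos h']
      simp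
    · rw [dif_pos (by simpa using h'), if_pos ⟨by omega, h'⟩, if_neg h', av_eq ι h h']
      simp
  · rw [dif_neg h, if_neg (by omega), if_neg (by omega)]
    simp

theorem map_D (hk : k < n) (hι : Function.Injective ι) :
    (asPoly n k (genPoly n).discr).map ι = (Fp n k (av n k ι)).discr := by
  rw [← genPoly_map ι (by omega), discr_map]
  · rfl
  · rw [genPoly_natDegree]; omega
  · rw [genPoly_lc, RingHom.comp_apply, asPoly_X, dif_pos (by
      rw [Fin.val_last]; omega)]
    rw [coe_mapRingHom, map_C]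
    rw [C_ne_zero, ne_eq, map_eq_zero_iff ι hι]
    exact MvPolynomial.X_ne_zero _

end Main

end Q36.DDi
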