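import Pool.Agent.Q36.DDi.Loc

/-!
# Numbers of small/large roots and valuations of differences of critical values
-/

namespace Q36.DDi

open Polynomial IsLocalRing

section Hyp
variable {Ω : Type*} [Field Ω] {V : ValuationSubring Ω} {p : ℕ} [Fact p.Prime]
  [Algebra (ZMod p) (ResidueField V)] {n k N : ℕ} {α : ℕ → V} {r : Fin N → Ω}

/-- The standing hypotheses. -/
structure Hyp (p : ℕ) [Fact p.Prime] (V : ValuationSubring Ω) [Algebra (ZMod p) (ResidueField V)]
    (n k N : ℕ) (α : ℕ → V) (r : Fin N → Ω) : Prop where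
  hn : 3 ≤ n
  hk : k < n
  hind : Ind p n k (fun i => residue V (α i))
  hN : N + (if k = 0 then 1 else 0) = n
  hr : ∀ i, r i ≠ 0
  hh : hp n k (fun i => (α i : Ω)) =
    C (((n : Ω) - k) * α n) * X ^ (if k = 0 then 1 else 0) * ∏ i, (X - C (r i))

theorem charP_res : CharP (ResidueField V) p :=
  charP_of_injective_algebraMap (algebraMap (ZMod p) (ResidueField V)).injective p

theorem cast_res_eq_zero (m : ℕ) : ((m : ResidueField V) = 0) ↔ p ∣ m := by
  have := charP_res (V := V) (p := p)
  exact CharP.cast_eq_zero_iff _ p m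

theorem prod_coeff_zero {κ : Type*} [Field κ] {ι : Type*} (s : Finset ι) (ρ : ι → κ)
    (h : ∀ i ∈ s, ρ i ≠ 0) : (∏ i ∈ s, (X - C (ρ i))).coeff 0 ≠ 0 := by
  rw [coeff_zero_eq_eval_zero, eval_prod, Finset.prod_ne_zero_iff]
  intro i hi
  simpa using h i hi

variable (H : Hyp p V n k N α r)
include H

theorem Hyp.bar_ne {i : ℕ} (hi : i ≤ n) (hik : i ≠ k) : residue V (α i) ≠ 0 :=
  H.hind.ne_zero hi hik

theorem Hyp.res : ∃ c : ResidueField V, c ≠ 0 ∧ hp n k (fun i => residue V (α i)) = C c *
      (X ^ ((if k = 0 then 1 else 0) + (I0 V r).card) *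
        ∏ i ∈ IU V r, (X - C (residue V (toV V (r i))))) :=
  hp_res H.hk (H.bar_ne (by have := H.hk; omega) (by omega)) H.hh

theorem Hyp.coeff {i : ℕ} (hi : i ≤ n) (hik : i ≠ k) :
    (hp n k (fun i => residue V (α i))).coeff i =
      ((i : ResidueField V) - k) * residue V (α i) := by
  rw [hp_coeff, gp_coeff, if_pos ⟨hi, hik⟩]

theorem Hyp.rho_ne {i : Fin N} (hi : i ∈ IU V r) : residue V (toV V (r i)) ≠ 0 :=
  res_toV_ne (mem_IU.1 hi)

theorem Hyp.card_I0 : (I0 V r).card = if k ≠ 0 ∧ p ∣ k then 1 else 0 := by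
  classical
  have := charP_res (V := V) (p := p)
  obtain ⟨c, hc, hres⟩ := H.res
  have hP0 := prod_coeff_zero (IU V r) (fun i => residue V (toV V (r i))) (fun i hi => H.rho_ne hi)
  set Pol := ∏ i ∈ IU V r, (X - C (residue V (toV V (r i)))) with hPol
  set z := (I0 V r).card with hz
  have hn := H.hn
  have hk := H.hk
  have hlow : ∀ j, j < (if k = 0 then 1 else 0) + z →
      (hp n k (fun i => residue V (α i))).coeff j = 0 := by
    intro j hj
    rw [hres, coeff_C_mul, coeff_X_pow_mul', if_neg (by omega), mul_zero]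
  have hat : (hp n k (fun i => residue V (α i))).coeff ((if k = 0 then 1 else 0) + z) ≠ 0 := by
    rw [hres, coeff_C_mul, coeff_X_pow_mul', if_pos le_rfl, Nat.sub_self]
    exact mul_ne_zero hc hP0
  by_cases hk0 : k = 0
  · rw [if_neg (by omega)]
    by_contra hcon
    have h1 := hlow 1 (by rw [if_pos hk0]; omega)
    rw [H.coeff (by omega) (by omega), hk0] at h1
    have h2 := H.bar_ne (i := 1) (by omega) (by omega)
    simp at h1
    exact h2 (by simpa using h1)
  · simp only [hk0, if_false, zero_add, not_false_eq_true, ne_eq, true_and] at hlow hat ⊢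
    by_cases hpk : p ∣ k
    · rw [if_pos hpk]
      have hkz : ((k : ResidueField V) = 0) := (cast_res_eq_zero k).2 hpk
      have hk2 : 2 ≤ k := (Fact.out : p.Prime).two_le.trans (Nat.le_of_dvd (by omega) hpk)
      have h0 : (hp n k (fun i => residue V (α i))).coeff 0 = 0 := by
        rw [H.coeff (by omega) (by omega), hkz]
        simp
      have hz0 : z ≠ 0 := by
        intro h
        rw [h] at hat
        exact hat h0
      have h1 : (hp n k (fun i => residue V (α i))).coeff 1 ≠ 0 := by
        rw [H.coeff (by omega) (by omega), hkz]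
        simpa using H.bar_ne (i := 1) (by omega) (by omega)
      by_contra hcon
      exact h1 (hlow 1 (by omega))
    · rw [if_neg hpk]
      by_contra hcon
      have h1 := hlow 0 (by omega)
      rw [H.coeff (by omega) (by omega)] at h1
      rcases mul_eq_zero.1 h1 with h2 | h2
      · have : (k : ResidueField V) = 0 := by simpa using h2
        exact hpk ((cast_res_eq_zero k).1 this)
      · exact H.bar_ne (by omega) (by omega) h2

theorem Hyp.card_I1 : (I1 V r).card = if p ∣ n - k then 1 else 0 := by
  classical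
  have := charP_res (V := V) (p := p)
  obtain ⟨c, hc, hres⟩ := H.res
  have hn := H.hn
  have hk := H.hk
  have hcard := card_split (V := V) r
  have hN := H.hN
  have hmon : (X ^ ((if k = 0 then 1 else 0) + (I0 V r).card) *
        ∏ i ∈ IU V r, (X - C (residue V (toV V (r i))))).Monic :=
    (monic_X_pow _).mul (monic_prod_of_monic _ _ (fun i _ => monic_X_sub_C _))
  have hdeg : (hp n k (fun i => residue V (α i))).natDegree = n - (I1 V r).card := by
    rw [hres, natDegree_C_mul hc,
      (monic_X_pow _).natDegree_mul (monic_prod_of_monic _ _ (fun i _ => monic_X_sub_C _)),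
      natDegree_X_pow, natDegree_prod_of_monic _ _ (fun i _ => monic_X_sub_C _)]
    simp only [natDegree_X_sub_C, Finset.sum_const, smul_eq_mul, mul_one]
    omega
  have hne : hp n k (fun i => residue V (α i)) ≠ 0 := by
    rw [hres]
    exact mul_ne_zero (C_ne_zero.2 hc) hmon.ne_zero
  have hw : (I1 V r).card ≤ n := by omega
  have hcast : ((n - k : ℕ) : ResidueField V) = (n : ResidueField V) - k := by
    rw [Nat.cast_sub hk.le]
  by_cases hp1 : p ∣ n - k
  · rw [if_pos hp1]
    have h0 : (n : ResidueField V) - k = 0 := by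
      rw [← hcast]
      exact (cast_res_eq_zero _).2 hp1
    have hp2 : 2 ≤ n - k := (Fact.out : p.Prime).two_le.trans (Nat.le_of_dvd (by omega) hp1)
    have h1 : (hp n k (fun i => residue V (α i))).coeff n = 0 := by
      rw [H.coeff le_rfl (by omega), h0, zero_mul]
    have hw0 : (I1 V r).card ≠ 0 := by
      intro h
      rw [h, Nat.sub_zero] at hdeg
      apply hne
      rw [← leadingCoeff_eq_zero, leadingCoeff, hdeg]
      exact h1
    have h2 : (hp n k (fun i => residue V (α i))).coeff (n - 1) ≠ 0 := by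
      rw [H.coeff (by omega) (by omega)]
      refine mul_ne_zero ?_ (H.bar_ne (by omega) (by omega))
      have : ((n - 1 : ℕ) : ResidueField V) - k = -1 := by
        rw [Nat.cast_sub (by omega), Nat.cast_one]
        linear_combination h0
      rw [this]
      exact neg_ne_zero.2 one_ne_zero
    have h3 := le_natDegree_of_ne_zero h2
    omega
  · rw [if_neg hp1]
    have h2 : (hp n k (fun i => residue V (α i))).coeff n ≠ 0 := by
      rw [H.coeff le_rfl (by omega)]
      refine mul_ne_zero ?_ (H.bar_ne le_rfl (by omega))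
      rw [← hcast]
      intro h
      exact hp1 ((cast_res_eq_zero _).1 h)
    have h3 := le_natDegree_of_ne_zero h2
    omega

/-- The critical value of the root `r i`. -/
theorem Hyp.eval_h (i : Fin N) : (hp n k (fun i => (α i : Ω))).eval (r i) = 0 := by
  rw [H.hh, eval_mul, eval_prod, Finset.prod_eq_zero (Finset.mem_univ i), mul_zero]
  simp

end Hyp

/-! ### A small root -/

section Small
variable {Ω : Type*} [Field Ω] {V : ValuationSubring Ω} {n k : ℕ} {α : ℕ → V}

theorem coe_eval (f : V[X]) (x : V) : ((f.eval x : V) : Ω) =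
    (f.map (algebraMap V Ω)).eval (x : Ω) := by
  rw [eval_map]
  exact (eval₂_at_apply (algebraMap V Ω) x).symm

theorem small_root {x : V} (hx : residue V x = 0) (hk2 : 2 ≤ k) (hkn : k ≤ n)
    (hkz : (k : ResidueField V) = 0) (h0 : residue V (α 0) ≠ 0)
    (h1 : residue V (α 1) ≠ 0) (hh : (hp n k α).eval x = 0) :
    ∃ Y : V, (gp n k α).eval x * (k : V) ^ k = Y * x ^ k ∧
      residue V Y * residue V (α 0) ^ k = residue V (α 0) * residue V (α 1) ^ k := by
  -- `k α₀ = x e`
  have e1 : hp n k α = divX (divX (hp n k α)) * X * X + C ((1 - (k : V)) * α 1) * X +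
      C (-(k : V) * α 0) := by
    have a1 := divX_mul_X_add (hp n k α)
    have a2 := divX_mul_X_add (divX (hp n k α))
    have a3 : (hp n k α).coeff 0 = -(k : V) * α 0 := by
      rw [hp_coeff, gp_coeff, if_pos ⟨by omega, by omega⟩]
      push_cast
      ring
    have a4 : (divX (hp n k α)).coeff 0 = (1 - (k : V)) * α 1 := by
      rw [coeff_divX, hp_coeff, gp_coeff, if_pos ⟨by omega, by omega⟩]
      push_cast
      ring
    rw [a3] at a1
    rw [a4] at a2
    calc hp n k α = divX (hp n k α) * X + C (-(k : V) * α 0) := a1.symm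
      _ = (divX (divX (hp n k α)) * X + C ((1 - (k : V)) * α 1)) * X + C (-(k : V) * α 0) := by
          rw [a2]
      _ = _ := by ring
  set y : V := (divX (divX (hp n k α))).eval x with hy
  set e : V := y * x + (1 - (k : V)) * α 1 with he
  have e2 : (k : V) * α 0 = x * e := by
    have := hh
    rw [e1] at this
    simp only [eval_add, eval_mul, eval_X, eval_C] at this
    rw [← hy] at this
    linear_combination (-1 : V) * this
  have e3 : gp n k α = divX (gp n k α) * X + C (α 0) := by
    have a1 := divX_mul_X_add (gp n k α)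
    rw [gp_coeff, if_pos ⟨by omega, by omega⟩] at a1
    exact a1.symm
  set y' : V := (divX (gp n k α)).eval x with hy'
  have e4 : (gp n k α).eval x = y' * x + α 0 := by
    have := congrArg (eval x) e3
    rw [eval_add, eval_mul, eval_X, eval_C, ← hy'] at this
    exact this
  have hu : IsUnit (α 0) := by
    by_contra hcon
    exact h0 ((residue_eq_zero_iff _).2 hcon)
  obtain ⟨u, hu⟩ := hu
  refine ⟨(gp n k α).eval x * e ^ k * (↑u⁻¹ : V) ^ k, ?_, ?_⟩
  · have h2 : (↑u⁻¹ : V) ^ k * (α 0) ^ k = 1 := by
      rw [← mul_pow, ← hu, Units.inv_mul, one_pow]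
    have h3 : (k : V) ^ k * α 0 ^ k = x ^ k * e ^ k := by
      rw [← mul_pow, e2, mul_pow]
    calc (gp n k α).eval x * (k : V) ^ k
        = (gp n k α).eval x * ((k : V) ^ k * α 0 ^ k) * (↑u⁻¹ : V) ^ k := by
          linear_combination (-(gp n k α).eval x * (k : V) ^ k) * h2
      _ = (gp n k α).eval x * e ^ k * (↑u⁻¹ : V) ^ k * x ^ k := by
          rw [h3]
          ring
  · have r1 : residue V ((gp n k α).eval x) = residue V (α 0) := by
      rw [e4, map_add, map_mul, hx, mul_zero, zero_add]
    have r2 : residue V e = residue V (α 1) := by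
      rw [he, map_add, map_mul, hx, mul_zero, zero_add, map_mul, map_sub, map_one, map_natCast,
        hkz, sub_zero, one_mul]
    have r3 : residue V (↑u⁻¹ : V) ^ k * residue V (α 0) ^ k = 1 := by
      rw [← mul_pow, ← map_mul, ← hu, Units.inv_mul, map_one, one_pow]
    rw [map_mul, map_mul, map_pow, map_pow, r1, r2]
    linear_combination (residue V (α 0) * residue V (α 1) ^ k) * r3

end Small

/-! ### Reversal -/

section Rev
variable {K : Type*} [Field K]

theorem gp_rev {n k : ℕ} (hk : k ≤ n) (a : ℕ → K) {r : K} (hr : r ≠ 0) :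
    (gp n (n - k) (fun j => a (n - j))).eval r⁻¹ * r ^ n = (gp n k a).eval r := by
  rw [eval_eq_sum_range' (Nat.lt_succ_of_le (gp_natDegree_le _ _ _)),
    eval_eq_sum_range' (Nat.lt_succ_of_le (gp_natDegree_le _ _ _)),
    ← Finset.sum_range_reflect, Finset.sum_mul]
  apply Finset.sum_congr rfl
  intro j hj
  rw [Finset.mem_range] at hj
  have e1 : n + 1 - 1 - j = n - j := by omega
  simp only [Nat.succ_eq_add_one]
  rw [e1]
  have e2 : (gp n (n - k) (fun j => a (n - j))).coeff (n - j) = (gp n k a).coeff j := by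
    rw [gp_coeff, gp_coeff]
    have : n - (n - j) = j := by omega
    rw [this]
    congr 1
    simp only [eq_iff_iff]
    constructor <;> rintro ⟨h1, h2⟩ <;> constructor <;> omega
  rw [e2]
  have e3 : r⁻¹ ^ (n - j) * r ^ n = r ^ j := by
    rw [inv_pow]
    have : r ^ n = r ^ (n - j) * r ^ j := by
      rw [← pow_add]
      congr 1
      omega
    rw [this]
    field_simp
  rw [mul_assoc, e3]

theorem hp_rev {n k : ℕ} (hk : k ≤ n) (a : ℕ → K) {r : K} (hr : r ≠ 0) :
    (hp n (n - k) (fun j => a (n - j))).eval r⁻¹ * r ^ n = -(hp n k a).eval r := by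
  rw [eval_eq_sum_range' (Nat.lt_succ_of_le (hp_natDegree_le _ _ _)),
    eval_eq_sum_range' (Nat.lt_succ_of_le (hp_natDegree_le _ _ _)),
    ← Finset.sum_range_reflect, Finset.sum_mul, ← Finset.sum_neg_distrib]
  apply Finset.sum_congr rfl
  intro j hj
  rw [Finset.mem_range] at hj
  have e1 : n + 1 - 1 - j = n - j := by omega
  simp only [Nat.succ_eq_add_one]
  rw [e1]
  have e2 : (hp n (n - k) (fun j => a (n - j))).coeff (n - j) = -(hp n k a).coeff j := by
    rw [hp_coeff, hp_coeff, gp_coeff, gp_coeff]
    have : n - (n - j) = j := by omega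
    rw [this, Nat.cast_sub hk, Nat.cast_sub (by omega : j ≤ n)]
    by_cases hj' : j ≤ n ∧ j ≠ k
    · rw [if_pos hj', if_pos ⟨by omega, by omega⟩]
      ring
    · rw [if_neg hj', if_neg (by omega)]
      ring
  rw [e2]
  have e3 : r⁻¹ ^ (n - j) * r ^ n = r ^ j := by
    rw [inv_pow]
    have : r ^ n = r ^ (n - j) * r ^ j := by
      rw [← pow_add]
      congr 1
      omega
    rw [this]
    field_simp
  rw [mul_assoc, e3]
  ring

end Rev

end Q36.DDi
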