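import Pool.Agent.Q36.DDi.Val

/-!
# Valuations of differences of critical values
-/

namespace Q36.DDi

open Polynomial IsLocalRing

section
variable {Ω : Type*} [Field Ω] {V : ValuationSubring Ω} {n k : ℕ} {α : ℕ → V}

theorem coe_gp (x : V) : (((gp n k α).eval x : V) : Ω) =
    (gp n k (fun i => (α i : Ω))).eval (x : Ω) := by
  rw [coe_eval, gp_map]
  rfl

theorem coe_hp (x : V) : (((hp n k α).eval x : V) : Ω) =
    (hp n k (fun i => (α i : Ω))).eval (x : Ω) := by
  rw [coe_eval, hp_map]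
  rfl

/-- The critical value at `x`. -/
noncomputable def cv (n k : ℕ) (α : ℕ → V) (x : Ω) : Ω :=
  -(gp n k (fun i => (α i : Ω))).eval x / x ^ k

end

section Hyp
variable {Ω : Type*} [Field Ω] {V : ValuationSubring Ω} {p : ℕ} [Fact p.Prime]
  [Algebra (ZMod p) (ResidueField V)] {n k N : ℕ} {α : ℕ → V} {r : Fin N → Ω}

theorem val_cast_lt (p : ℕ) [Fact p.Prime] [Algebra (ZMod p) (ResidueField V)] {m : ℕ}
    (h : p ∣ m) : V.valuation (m : Ω) < 1 := by
  have h1 : residue V (m : V) = 0 := by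
    rw [map_natCast]
    exact (cast_res_eq_zero (V := V) (p := p) m).2 h
  have h2 := (res_eq_zero_iff _).1 h1
  simpa using h2

theorem val_cast_eq (p : ℕ) [Fact p.Prime] [Algebra (ZMod p) (ResidueField V)] {m : ℕ}
    (h : ¬ p ∣ m) : V.valuation (m : Ω) = 1 := by
  have h1 : residue V (m : V) ≠ 0 := by
    rw [map_natCast]
    exact fun h2 => h ((cast_res_eq_zero (V := V) (p := p) m).1 h2)
  have h2 := (res_ne_zero_iff _).1 h1
  simpa using h2

variable (H : Hyp p V n k N α r)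
include H

theorem Hyp.I0_props {i : Fin N} (hi : i ∈ I0 V r) : 2 ≤ k ∧ p ∣ k := by
  have h1 := H.card_I0
  have h2 : (I0 V r).card ≠ 0 := Finset.card_ne_zero_of_mem hi
  by_cases h3 : k ≠ 0 ∧ p ∣ k
  · exact ⟨(Fact.out : p.Prime).two_le.trans (Nat.le_of_dvd (by omega) h3.2), h3.2⟩
  · rw [if_neg h3] at h1
    exact absurd h1 h2

theorem Hyp.I1_props {i : Fin N} (hi : i ∈ I1 V r) : 2 ≤ n - k ∧ p ∣ n - k := by
  have h1 := H.card_I1
  have h2 : (I1 V r).card ≠ 0 := Finset.card_ne_zero_of_mem hi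
  by_cases h3 : p ∣ n - k
  · have := H.hk
    exact ⟨(Fact.out : p.Prime).two_le.trans (Nat.le_of_dvd (by omega) h3), h3⟩
  · rw [if_neg h3] at h1
    exact absurd h1 h2

theorem Hyp.S0 {i : Fin N} (hi : i ∈ I0 V r) : ∃ Y : V,
    cv n k α (r i) * (k : Ω) ^ k = -(Y : Ω) ∧
      residue V Y * residue V (α 0) ^ k = residue V (α 0) * residue V (α 1) ^ k := by
  obtain ⟨hk2, hpk⟩ := H.I0_props hi
  have hlt := mem_I0.1 hi
  have hx := coe_toV (V := V) hlt.le
  have hk := H.hk
  have hn := H.hn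
  obtain ⟨Y, h1, h2⟩ := small_root (n := n) (k := k) (α := α) (x := toV V (r i))
    (res_toV_eq hlt) hk2 (by omega) ((cast_res_eq_zero (V := V) (p := p) k).2 hpk)
    (H.bar_ne (by omega) (by omega))
    (H.bar_ne (by omega) (by omega)) (by
      have h3 := H.eval_h i
      rw [← hx, ← coe_hp] at h3
      exact_mod_cast h3)
  refine ⟨Y, ?_, h2⟩
  have h3 := congrArg (fun z : V => (z : Ω)) h1
  have h4 : (gp n k (fun i => (α i : Ω))).eval (r i) * (k : Ω) ^ k = (Y : Ω) * r i ^ k := by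
    have h5 := coe_gp (n := n) (k := k) (α := α) (toV V (r i))
    rw [hx] at h5
    rw [← h5]
    have h6 : (((gp n k α).eval (toV V (r i)) * (k : V) ^ k : V) : Ω) =
        ((Y * toV V (r i) ^ k : V) : Ω) := h3
    push_cast at h6
    rw [hx] at h6
    exact h6
  rw [cv]
  have hr := H.hr i
  field_simp
  linear_combination -h4

theorem Hyp.S1 {i : Fin N} (hi : i ∈ I1 V r) : ∃ Y : V,
    cv n k α (r i) * ((n - k : ℕ) : Ω) ^ (n - k) = -(Y : Ω) ∧
      residue V Y * residue V (α n) ^ (n - k) =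
        residue V (α n) * residue V (α (n - 1)) ^ (n - k) := by
  obtain ⟨hk2, hpk⟩ := H.I1_props hi
  have hlt := inv_lt (mem_I1.1 hi)
  have hx := coe_toV (V := V) hlt.le
  have hk := H.hk
  have hn := H.hn
  have hr := H.hr i
  have hrev := hp_rev hk.le (fun i => (α i : Ω)) hr
  rw [H.eval_h i, neg_zero] at hrev
  have hrev2 := gp_rev hk.le (fun i => (α i : Ω)) hr
  obtain ⟨Y, h1, h2⟩ := small_root (n := n) (k := n - k) (α := fun j => α (n - j))
    (x := toV V (r i)⁻¹)
    (res_toV_eq hlt) hk2 (by omega) ((cast_res_eq_zero (V := V) (p := p) (n - k)).2 hpk)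
    (H.bar_ne (by omega) (by omega))
    (H.bar_ne (by omega) (by omega)) (by
      have h3 : (hp n (n - k) (fun j => (α (n - j) : Ω))).eval (r i)⁻¹ = 0 := by
        rcases mul_eq_zero.1 hrev with h | h
        · exact h
        · exact absurd h (pow_ne_zero _ hr)
      have h4 := coe_hp (n := n) (k := n - k) (α := fun j => α (n - j)) (toV V (r i)⁻¹)
      rw [hx, h3] at h4
      exact_mod_cast h4)
  refine ⟨Y, ?_, by simpa using h2⟩
  have h3 : (((gp n (n - k) (fun j => α (n - j))).eval (toV V (r i)⁻¹) *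
      ((n - k : ℕ) : V) ^ (n - k) : V) : Ω) =
        ((Y * toV V (r i)⁻¹ ^ (n - k) : V) : Ω) := congrArg (fun z : V => (z : Ω)) h1
  have h5 := coe_gp (n := n) (k := n - k) (α := fun j => α (n - j)) (toV V (r i)⁻¹)
  rw [hx] at h5
  have h6 : (gp n (n - k) (fun j => (α (n - j) : Ω))).eval (r i)⁻¹ *
      ((n - k : ℕ) : Ω) ^ (n - k) = (Y : Ω) * (r i)⁻¹ ^ (n - k) := by
    rw [← h5]
    have h7 : (((gp n (n - k) (fun j => α (n - j))).eval (toV V (r i)⁻¹) : V) : Ω) *
        (((n - k : ℕ) : V) : Ω) ^ (n - k) = (Y : Ω) * ((toV V (r i)⁻¹ : V) : Ω) ^ (n - k) := by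
      exact_mod_cast h3
    rw [hx] at h7
    rw [← h7]
    norm_cast
  have h8 : (gp n k (fun i => (α i : Ω))).eval (r i) * ((n - k : ℕ) : Ω) ^ (n - k) =
      (Y : Ω) * r i ^ k := by
    have h9 : (r i)⁻¹ ^ (n - k) * r i ^ n = r i ^ k := by
      have : r i ^ n = r i ^ (n - k) * r i ^ k := by
        rw [← pow_add]
        congr 1
        omega
      rw [this, inv_pow]
      field_simp
    rw [← hrev2, ← h9]
    linear_combination (r i ^ n) * h6
  rw [cv]
  rw [div_mul_eq_mul_div, div_eq_iff (pow_ne_zero _ hr)]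
  linear_combination -h8

theorem Hyp.SU {i : Fin N} (hi : i ∈ IU V r) : ∃ s : V, (s : Ω) = cv n k α (r i) ∧
    (gp n k α).eval (toV V (r i)) + s * toV V (r i) ^ k = 0 := by
  have h1 := mem_IU.1 hi
  have hx := coe_toV (V := V) h1.le
  have hr := H.hr i
  have hv : V.valuation (cv n k α (r i)) ≤ 1 := by
    rw [cv, map_div₀, map_pow, h1, one_pow, div_one, Valuation.map_neg, ← hx, ← coe_gp]
    exact V.valuation_le_one _
  refine ⟨toV V (cv n k α (r i)), coe_toV hv, ?_⟩
  apply Subtype.ext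
  have h2 := coe_gp (n := n) (k := k) (α := α) (toV V (r i))
  rw [hx] at h2
  push_cast
  rw [h2, hx, coe_toV hv, cv]
  field_simp
  ring

theorem Hyp.unit_x {i : Fin N} (hi : i ∈ IU V r) : IsUnit (toV V (r i)) := by
  by_contra hcon
  exact H.rho_ne hi ((residue_eq_zero_iff _).2 hcon)

theorem Hyp.hx0 {i : Fin N} (hi : i ∈ IU V r) : (hp n k α).eval (toV V (r i)) = 0 := by
  have h1 := mem_IU.1 hi
  have hx := coe_toV (V := V) h1.le
  have h3 := H.eval_h i
  rw [← hx, ← coe_hp] at h3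
  exact_mod_cast h3

theorem Hyp.UU1 {i j : Fin N} (hi : i ∈ IU V r) (hj : j ∈ IU V r)
    (hne : residue V (toV V (r i)) ≠ residue V (toV V (r j))) :
    V.valuation (cv n k α (r i) - cv n k α (r j)) = 1 := by
  obtain ⟨s, hs, hs'⟩ := H.SU hi
  obtain ⟨t, ht, ht'⟩ := H.SU hj
  rw [← hs, ← ht]
  have h1 := sq_dvd_Gp (H.unit_x hi) hs' (H.hx0 hi)
  have h2 := sq_dvd_Gp (H.unit_x hj) ht' (H.hx0 hj)
  have h3 := Polynomial.map_dvd (residue V) h1
  have h4 := Polynomial.map_dvd (residue V) h2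
  rw [Gp_map, Polynomial.map_pow, Polynomial.map_sub, map_X, map_C] at h3 h4
  have h5 : residue V (s - t) ≠ 0 := by
    intro h
    rw [map_sub, sub_eq_zero] at h
    rw [h] at h3
    exact G1 H.hn H.hk.le H.hind _ hne h3 h4
  have h6 := (res_ne_zero_iff _).1 h5
  exact_mod_cast h6

/-- Two unit roots with the same residue: `(X - ρ)²` divides the reduction of `h`. -/
theorem Hyp.two_dvd {i j : Fin N} (hi : i ∈ IU V r) (hj : j ∈ IU V r) (hij : i ≠ j)
    (he : residue V (toV V (r i)) = residue V (toV V (r j))) :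
    (X - C (residue V (toV V (r i)))) ^ 2 ∣ hp n k (fun i => residue V (α i)) := by
  classical
  obtain ⟨c, hc, hres⟩ := H.res
  rw [hres, ← Finset.mul_prod_erase (IU V r) (fun i => X - C (residue V (toV V (r i)))) hi,
    ← Finset.mul_prod_erase ((IU V r).erase i) (fun i => X - C (residue V (toV V (r i))))
      (Finset.mem_erase.2 ⟨hij.symm, hj⟩)]
  rw [← he]
  exact ⟨C c * (X ^ ((if k = 0 then 1 else 0) + (I0 V r).card) *
    ∏ x ∈ ((IU V r).erase i).erase j, (X - C (residue V (toV V (r x))))), by ring⟩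

theorem Hyp.three_dvd {i j l : Fin N} (hi : i ∈ IU V r) (hj : j ∈ IU V r) (hl : l ∈ IU V r)
    (hij : i ≠ j) (hil : i ≠ l) (hjl : j ≠ l)
    (he : residue V (toV V (r i)) = residue V (toV V (r j)))
    (he' : residue V (toV V (r i)) = residue V (toV V (r l))) :
    (X - C (residue V (toV V (r i)))) ^ 3 ∣ hp n k (fun i => residue V (α i)) := by
  classical
  obtain ⟨c, hc, hres⟩ := H.res
  rw [hres, ← Finset.mul_prod_erase (IU V r) (fun i => X - C (residue V (toV V (r i)))) hi,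
    ← Finset.mul_prod_erase ((IU V r).erase i) (fun i => X - C (residue V (toV V (r i))))
      (Finset.mem_erase.2 ⟨hij.symm, hj⟩),
    ← Finset.mul_prod_erase (((IU V r).erase i).erase j)
      (fun i => X - C (residue V (toV V (r i))))
      (Finset.mem_erase.2 ⟨hjl.symm, Finset.mem_erase.2 ⟨hil.symm, hl⟩⟩)]
  rw [← he, ← he']
  exact ⟨C c * (X ^ ((if k = 0 then 1 else 0) + (I0 V r).card) *
    ∏ x ∈ (((IU V r).erase i).erase j).erase l, (X - C (residue V (toV V (r x))))), by ring⟩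

end Hyp

end Q36.DDi
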