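import Pool.Agent.Q36.DDi.Val2

/-!
# Pairs of unit roots, mixed pairs
-/

namespace Q36.DDi

open Polynomial IsLocalRing

section Hyp
variable {Ω : Type*} [Field Ω] [CharZero Ω] {V : ValuationSubring Ω} {p : ℕ} [Fact p.Prime]
  [Algebra (ZMod p) (ResidueField V)] {n k N : ℕ} {α : ℕ → V} {r : Fin N → Ω}
variable (H : Hyp p V n k N α r)
include H

theorem Hyp.UU2 {i j : Fin N} (hi : i ∈ IU V r) (hj : j ∈ IU V r) (hij : i ≠ j)
    (he : residue V (toV V (r i)) = residue V (toV V (r j))) :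
    p = 2 ∧ V.valuation (cv n k α (r i) - cv n k α (r j)) = V.valuation (2 : Ω) ^ 2 := by
  classical
  obtain ⟨s, hs, hs'⟩ := H.SU hi
  obtain ⟨t, ht, ht'⟩ := H.SU hj
  rw [← hs, ← ht]
  set x := toV V (r i) with hx
  set x' := toV V (r j) with hx'
  set ρ := residue V x with hρ
  have hρ0 : ρ ≠ 0 := H.rho_ne hi
  obtain ⟨W, hW⟩ := sq_dvd_Gp (H.unit_x hi) hs' (H.hx0 hi)
  rw [← hx] at hW
  have hWb : Gp n k (fun i => residue V (α i)) (residue V s) =
      (X - C ρ) ^ 2 * W.map (residue V) := by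
    have := congrArg (Polynomial.map (residue V)) hW
    rwa [Gp_map, Polynomial.map_mul, Polynomial.map_pow, Polynomial.map_sub, map_X,
      map_C] at this
  have hWρ : (W.map (residue V)).eval ρ ≠ 0 := by
    intro h
    obtain ⟨q, hq⟩ := dvd_iff_isRoot.2 h
    apply G2 H.hn H.hk.le H.hind (residue V s) ρ
    rw [hWb, hq]
    exact ⟨q, by ring⟩
  have hWx' : residue V (W.eval x') ≠ 0 := by
    rw [he, eval_map, eval₂_at_apply] at hWρ
    exact hWρ
  have hWx : residue V (W.eval x) ≠ 0 := by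
    rw [eval_map, eval₂_at_apply] at hWρ
    exact hWρ
  -- value
  have hval : (s - t) * x' ^ k = (x' - x) ^ 2 * W.eval x' := by
    have h1 := congrArg (eval x') hW
    rw [Gp] at h1
    simp only [eval_add, eval_mul, eval_C, eval_pow, eval_X, eval_sub] at h1
    linear_combination h1 - ht'
  have hvx' : V.valuation (x' : Ω) = 1 := (res_ne_zero_iff _).1 (H.rho_ne hj)
  have hvW' : V.valuation ((W.eval x' : V) : Ω) = 1 := (res_ne_zero_iff _).1 hWx'
  have hval2 : V.valuation ((s : Ω) - t) = V.valuation ((x' : Ω) - x) ^ 2 := by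
    have h1 := congrArg (fun z : V => V.valuation (z : Ω)) hval
    push_cast at h1
    rw [map_mul, map_mul, map_pow, map_pow, hvx', hvW', one_pow, mul_one, mul_one] at h1
    exact h1
  -- p = 2
  have h2dvd := H.two_dvd hi hj hij he
  rw [← hx, ← hρ] at h2dvd
  have hb := hp_of_sq hWb
  have h2z : (2 : ResidueField V) = 0 := by
    rw [hb, sq] at h2dvd
    have h3 := (mul_dvd_mul_iff_left (X_sub_C_ne_zero ρ)).1 h2dvd
    have h4 : (X - C ρ) ∣ 2 * X * W.map (residue V) :=
      (dvd_add_left (dvd_mul_right _ _)).1 h3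
    have h5 : (2 * X * W.map (residue V)).eval ρ = 0 := dvd_iff_isRoot.1 h4
    simp only [eval_mul, eval_ofNat, eval_X] at h5
    rcases mul_eq_zero.1 h5 with h6 | h6
    · rcases mul_eq_zero.1 h6 with h7 | h7
      · exact h7
      · exact absurd h7 hρ0
    · exact absurd h6 hWρ
  have hp2 : p = 2 := by
    have h3 : p ∣ 2 := (cast_res_eq_zero (V := V) (p := p) 2).1 (by exact_mod_cast h2z)
    exact (Nat.prime_dvd_prime_iff_eq Fact.out Nat.prime_two).1 h3
  refine ⟨hp2, ?_⟩
  rw [hval2]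
  congr 1
  subst hp2
  -- distinctness
  have hxne : x' - x ≠ 0 := by
    intro h0
    have hrr : r i = r j := by
      have e1 := coe_toV (V := V) (mem_IU.1 hi).le
      have e2 := coe_toV (V := V) (mem_IU.1 hj).le
      rw [← e1, ← e2, ← hx, ← hx', sub_eq_zero.1 h0]
    have hd : (X - C (r i)) ^ 2 ∣ hp n k (fun i => (α i : Ω)) := by
      rw [H.hh, ← Finset.mul_prod_erase Finset.univ (fun i => X - C (r i)) (Finset.mem_univ i),
        ← Finset.mul_prod_erase (Finset.univ.erase i) (fun i => X - C (r i))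
          (Finset.mem_erase.2 ⟨hij.symm, Finset.mem_univ j⟩), ← hrr]
      exact ⟨C (((n : Ω) - k) * α n) * X ^ (if k = 0 then 1 else 0) *
        ∏ l ∈ (Finset.univ.erase i).erase j, (X - C (r l)), by ring⟩
    have hWo : Gp n k (fun i => (α i : Ω)) (s : Ω) =
        (X - C (r i)) ^ 2 * W.map (algebraMap V Ω) := by
      have h1 := congrArg (Polynomial.map (algebraMap V Ω)) hW
      rw [Gp_map, Polynomial.map_mul, Polynomial.map_pow, Polynomial.map_sub, map_X,
        map_C] at h1
      have e1 : algebraMap V Ω x = r i := coe_toV (V := V) (mem_IU.1 hi).le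
      rw [e1] at h1
      exact h1
    rw [hp_of_sq hWo, sq] at hd
    have h3 := (mul_dvd_mul_iff_left (X_sub_C_ne_zero (r i))).1 hd
    have h4 : (X - C (r i)) ∣ 2 * X * W.map (algebraMap V Ω) :=
      (dvd_add_left (dvd_mul_right _ _)).1 h3
    have h5 : (2 * X * W.map (algebraMap V Ω)).eval (r i) = 0 := dvd_iff_isRoot.1 h4
    simp only [eval_mul, eval_ofNat, eval_X] at h5
    rcases mul_eq_zero.1 h5 with h6 | h6
    · rcases mul_eq_zero.1 h6 with h7 | h7
      · exact two_ne_zero h7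
      · exact H.hr i h7
    · have e1 : algebraMap V Ω x = r i := coe_toV (V := V) (mem_IU.1 hi).le
      rw [← e1, eval_map, eval₂_at_apply] at h6
      have h7 : W.eval x = 0 := by
        apply FaithfulSMul.algebraMap_injective V Ω
        rw [h6, map_zero]
      rw [h7, map_zero] at hWx
      exact hWx rfl
  -- the unit `Y`
  set Y : V := x' * (derivative W).eval x' - k * W.eval x' with hY
  have hYr : residue V Y ≠ 0 := by
    intro h0
    have e1 : (X * derivative (W.map (residue V)) - C (k : ResidueField V) *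
        W.map (residue V)).eval ρ = 0 := by
      rw [he, eval_sub, eval_mul, eval_mul, eval_X, eval_C, derivative_map, eval_map,
        eval_map, eval₂_at_apply, eval₂_at_apply]
      rw [hY] at h0
      simpa using h0
    obtain ⟨q, hq⟩ := dvd_iff_isRoot.2 e1
    apply G3 H.hn H.hk.le H.hind hρ0
    rw [hb, hq]
    have e2 : (2 : (ResidueField V)[X]) = 0 := by
      rw [← map_ofNat (C : ResidueField V →+* (ResidueField V)[X]) 2, h2z, C_0]
    exact ⟨q, by rw [e2]; ring⟩
  have hvY : V.valuation (Y : Ω) = 1 := (res_ne_zero_iff _).1 hYr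
  have hh0 : 2 * x' * W.eval x' = -((x' - x) * Y) := by
    have h1 := H.hx0 hj
    rw [← hx', hp_of_sq hW] at h1
    simp only [eval_add, eval_mul, eval_C, eval_X, eval_sub, eval_ofNat, eval_natCast] at h1
    rcases mul_eq_zero.1 h1 with h2 | h2
    · exact absurd h2 hxne
    · rw [hY]
      linear_combination h2
  have h1 := congrArg (fun z : V => V.valuation (z : Ω)) hh0
  push_cast at h1
  rw [map_mul, map_mul, hvx', hvW', mul_one, mul_one, Valuation.map_neg, map_mul, hvY,
    mul_one] at h1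
  exact h1.symm

theorem Hyp.UU3 (hp2 : p = 2) {i : Fin N} (hi : i ∈ IU V r) :
    ∃ j ∈ IU V r, j ≠ i ∧ residue V (toV V (r i)) = residue V (toV V (r j)) ∧
      ∀ l ∈ IU V r, l ≠ i → residue V (toV V (r i)) = residue V (toV V (r l)) → l = j := by
  classical
  subst hp2
  obtain ⟨s, hs, hs'⟩ := H.SU hi
  set x := toV V (r i) with hx
  set ρ := residue V x with hρ
  have hρ0 : ρ ≠ 0 := H.rho_ne hi
  obtain ⟨W, hW⟩ := sq_dvd_Gp (H.unit_x hi) hs' (H.hx0 hi)
  rw [← hx] at hW
  have hWb : Gp n k (fun i => residue V (α i)) (residue V s) =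
      (X - C ρ) ^ 2 * W.map (residue V) := by
    have := congrArg (Polynomial.map (residue V)) hW
    rwa [Gp_map, Polynomial.map_mul, Polynomial.map_pow, Polynomial.map_sub, map_X,
      map_C] at this
  have hb := hp_of_sq hWb
  have h2z : (2 : ResidueField V) = 0 := by
    have := (cast_res_eq_zero (V := V) (p := 2) 2).2 dvd_rfl
    exact_mod_cast this
  have e2 : (2 : (ResidueField V)[X]) = 0 := by
    rw [← map_ofNat (C : ResidueField V →+* (ResidueField V)[X]) 2, h2z, C_0]
  obtain ⟨c, hc, hres⟩ := H.res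
  rw [e2, zero_mul, zero_mul, zero_add, hres,
    ← Finset.mul_prod_erase (IU V r) (fun i => X - C (residue V (toV V (r i)))) hi] at hb
  rw [← hx, ← hρ] at hb
  have h3 : C c * (X ^ ((if k = 0 then 1 else 0) + (I0 V r).card) *
      ∏ x ∈ (IU V r).erase i, (X - C (residue V (toV V (r x))))) =
      (X - C ρ) * (X * derivative (W.map (residue V)) - C (k : ResidueField V) *
        W.map (residue V)) := by
    apply mul_left_cancel₀ (X_sub_C_ne_zero ρ)
    rw [← hb]
    ring
  have h4 := congrArg (eval ρ) h3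
  simp only [eval_mul, eval_C, eval_pow, eval_X, eval_sub, sub_self, zero_mul, eval_prod] at h4
  rcases mul_eq_zero.1 h4 with h5 | h5
  · exact absurd h5 hc
  rcases mul_eq_zero.1 h5 with h6 | h6
  · exact absurd h6 (pow_ne_zero _ hρ0)
  obtain ⟨j, hj, hj0⟩ := Finset.prod_eq_zero_iff.1 h6
  rw [Finset.mem_erase] at hj
  refine ⟨j, hj.2, hj.1, sub_eq_zero.1 hj0, ?_⟩
  intro l hl hli hle
  by_contra hlj
  exact G3 H.hn H.hk.le H.hind hρ0
    (H.three_dvd hi hj.2 hl hj.1.symm (Ne.symm hli) (Ne.symm hlj) (sub_eq_zero.1 hj0) hle)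

theorem Hyp.prodUU {i : Fin N} (hi : i ∈ IU V r) :
    ∏ j ∈ (IU V r).erase i, V.valuation (cv n k α (r i) - cv n k α (r j)) =
      if p = 2 then V.valuation (2 : Ω) ^ 2 else 1 := by
  classical
  by_cases hp2 : p = 2
  · rw [if_pos hp2]
    obtain ⟨j, hj, hji, hje, huniq⟩ := H.UU3 hp2 hi
    rw [Finset.prod_eq_single_of_mem j (Finset.mem_erase.2 ⟨hji, hj⟩)]
    · exact (H.UU2 hi hj hji.symm hje).2
    · intro l hl hlj
      rw [Finset.mem_erase] at hl
      apply H.UU1 hi hl.2
      intro he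
      exact hlj (huniq l hl.2 hl.1 he)
  · rw [if_neg hp2]
    apply Finset.prod_eq_one
    intro j hj
    rw [Finset.mem_erase] at hj
    apply H.UU1 hi hj.2
    intro he
    exact hp2 (H.UU2 hi hj.2 hj.1.symm he).1

theorem Hyp.val_cv_le {i : Fin N} (hi : i ∈ IU V r) : V.valuation (cv n k α (r i)) ≤ 1 := by
  obtain ⟨s, hs, _⟩ := H.SU hi
  rw [← hs]
  exact V.valuation_le_one s

theorem Hyp.val_cv0 {i : Fin N} (hi : i ∈ I0 V r) :
    V.valuation (cv n k α (r i)) = (V.valuation (k : Ω) ^ k)⁻¹ ∧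
      1 < V.valuation (cv n k α (r i)) := by
  obtain ⟨hk2, hpk⟩ := H.I0_props hi
  obtain ⟨Y, h1, h2⟩ := H.S0 hi
  have hY : residue V Y ≠ 0 := by
    intro h
    rw [h, zero_mul] at h2
    exact mul_ne_zero (H.bar_ne (by omega) (by omega))
      (pow_ne_zero _ (H.bar_ne (by have := H.hn; omega) (by omega))) h2.symm
  have hvY := (res_ne_zero_iff _).1 hY
  have h3 := congrArg V.valuation h1
  rw [map_mul, map_pow, Valuation.map_neg, hvY] at h3
  have h4 := eq_inv_of_mul_eq_one_left h3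
  refine ⟨h4, ?_⟩
  rw [h4]
  have hv : V.valuation (k : Ω) < 1 := val_cast_lt p hpk
  have hk0 : V.valuation (k : Ω) ≠ 0 := by
    rw [ne_eq, map_eq_zero]
    exact_mod_cast (by omega : k ≠ 0)
  apply (one_lt_inv₀ (pow_pos (zero_lt_iff.2 hk0) _)).2
  exact pow_lt_one₀ zero_le hv (by omega)

theorem Hyp.val_cv1 {i : Fin N} (hi : i ∈ I1 V r) :
    V.valuation (cv n k α (r i)) = (V.valuation ((n - k : ℕ) : Ω) ^ (n - k))⁻¹ ∧
      1 < V.valuation (cv n k α (r i)) := by
  obtain ⟨hk2, hpk⟩ := H.I1_props hi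
  obtain ⟨Y, h1, h2⟩ := H.S1 hi
  have hY : residue V Y ≠ 0 := by
    intro h
    rw [h, zero_mul] at h2
    exact mul_ne_zero (H.bar_ne (by omega) (by omega))
      (pow_ne_zero _ (H.bar_ne (by have := H.hn; omega) (by omega))) h2.symm
  have hvY := (res_ne_zero_iff _).1 hY
  have h3 := congrArg V.valuation h1
  rw [map_mul, map_pow, Valuation.map_neg, hvY] at h3
  have h4 := eq_inv_of_mul_eq_one_left h3
  refine ⟨h4, ?_⟩
  rw [h4]
  have hv : V.valuation ((n - k : ℕ) : Ω) < 1 := val_cast_lt p hpk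
  have hk0 : V.valuation ((n - k : ℕ) : Ω) ≠ 0 := by
    rw [ne_eq, map_eq_zero]
    exact_mod_cast (by omega : n - k ≠ 0)
  apply (one_lt_inv₀ (pow_pos (zero_lt_iff.2 hk0) _)).2
  exact pow_lt_one₀ zero_le hv (by omega)

end Hyp

end Q36.DDi
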