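import Pool.Agent.Q36.DDi.Val3

/-!
# The small and the large critical value; the product of all differences
-/

namespace Q36.DDi

open Polynomial IsLocalRing

theorem alg2 {G : Type*} [CommMonoid G] (A0 A1 x0 x1 c M : G) (u : ℕ) :
    (x0 ^ u * M ^ 1) ^ 1 * (x0 ^ 1 * c * x1 ^ 1) ^ u * (M ^ 1 * x1 ^ u) ^ 1 *
      (A0 * A1) ^ (2 * u + 2) =
    (x0 ^ u * A0 ^ u) * (x0 ^ u * A0 ^ u) * ((x1 ^ u * A1 ^ u) *
      (x1 ^ u * A1 ^ u)) * (c ^ u * (A0 * A1 * M) ^ 2) := by
  rw [pow_add, mul_comm 2 u, pow_mul]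
  simp only [pow_one, mul_pow, sq]
  ac_rfl

theorem alg1 {G : Type*} [CommMonoid G] (A0 x0 c M y : G) (u : ℕ) :
    (x0 ^ u * M ^ 0) ^ 1 * (x0 ^ 1 * c * y ^ 0) ^ u * (M ^ 1 * y ^ u) ^ 0 *
      (A0 * 1) ^ (2 * u) = (x0 ^ u * A0 ^ u) * (x0 ^ u * A0 ^ u) * (c ^ u) := by
  rw [mul_comm 2 u, pow_mul]
  simp only [pow_one, mul_pow, pow_zero, mul_one, sq]
  ac_rfl

theorem alg1' {G : Type*} [CommMonoid G] (A1 x1 c M y : G) (u : ℕ) :
    (y ^ u * M ^ 1) ^ 0 * (y ^ 0 * c * x1 ^ 1) ^ u * (M ^ 0 * x1 ^ u) ^ 1 *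
      (1 * A1) ^ (2 * u) = (x1 ^ u * A1 ^ u) * (x1 ^ u * A1 ^ u) * (c ^ u) := by
  rw [mul_comm 2 u, pow_mul]
  simp only [pow_one, mul_pow, pow_zero, mul_one, one_mul, sq]
  ac_rfl

section Hyp
variable {Ω : Type*} [Field Ω] [CharZero Ω] {V : ValuationSubring Ω} {p : ℕ} [Fact p.Prime]
  [Algebra (ZMod p) (ResidueField V)] {n k N : ℕ} {α : ℕ → V} {r : Fin N → Ω}

omit [CharZero Ω] in
theorem val_cast_pow (p : ℕ) [Fact p.Prime] [Algebra (ZMod p) (ResidueField V)] {m : ℕ}
    (hm : m ≠ 0) :
    V.valuation (m : Ω) = V.valuation (p : Ω) ^ (m.factorization p) := by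
  have h1 := Nat.ordProj_mul_ordCompl_eq_self m p
  have h2 : ¬ p ∣ m / p ^ m.factorization p := Nat.not_dvd_ordCompl Fact.out hm
  have h3 : V.valuation (((p ^ m.factorization p * (m / p ^ m.factorization p) : ℕ)) : Ω) =
      V.valuation (p : Ω) ^ (m.factorization p) := by
    rw [Nat.cast_mul, map_mul, val_cast_eq p h2, mul_one, Nat.cast_pow, map_pow]
  rw [h1] at h3
  exact h3

theorem val_p_pos (p : ℕ) [Fact p.Prime] : 0 < V.valuation (p : Ω) := by
  rw [zero_lt_iff, ne_eq, map_eq_zero]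
  exact_mod_cast (Fact.out : p.Prime).ne_zero

omit [CharZero Ω] in
theorem val_p_lt (p : ℕ) [Fact p.Prime] [Algebra (ZMod p) (ResidueField V)] :
    V.valuation (p : Ω) < 1 := val_cast_lt p dvd_rfl

theorem pow_val_inj (p : ℕ) [Fact p.Prime] [Algebra (ZMod p) (ResidueField V)] {a b : ℕ}
    (h : V.valuation (p : Ω) ^ a = V.valuation (p : Ω) ^ b) : a = b :=
  pow_right_injective₀ (val_p_pos p) (val_p_lt p).ne h

variable (H : Hyp p V n k N α r)
include H

omit [CharZero Ω] in
/-- An algebraic relation which is impossible. -/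
theorem Hyp.no_rel (hk2 : 2 ≤ k) (hm2 : 2 ≤ n - k) {c1 c2 : ℕ} (hc2 : ¬ p ∣ c2)
    (h : residue V (α 0) * residue V (α 1) ^ k * residue V (α n) ^ (n - k) * (c1 : ResidueField V) =
      (c2 : ResidueField V) * (residue V (α n) * residue V (α (n - 1)) ^ (n - k)) *
        residue V (α 0) ^ k) : False := by
  classical
  have hn := H.hn
  let i0 : {i : Fin (n + 1) // (i : ℕ) ≠ k} := ⟨⟨0, by omega⟩, by simp only; omega⟩
  let i1 : {i : Fin (n + 1) // (i : ℕ) ≠ k} := ⟨⟨1, by omega⟩, by simp only; omega⟩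
  let i2 : {i : Fin (n + 1) // (i : ℕ) ≠ k} := ⟨⟨n - 1, by omega⟩, by simp only; omega⟩
  let i3 : {i : Fin (n + 1) // (i : ℕ) ≠ k} := ⟨⟨n, by omega⟩, by simp only; omega⟩
  let F : MvPolynomial {i : Fin (n + 1) // (i : ℕ) ≠ k} (ZMod p) :=
    MvPolynomial.X i0 * MvPolynomial.X i1 ^ k * MvPolynomial.X i3 ^ (n - k) *
      MvPolynomial.C (c1 : ZMod p) -
      MvPolynomial.C (c2 : ZMod p) * (MvPolynomial.X i3 * MvPolynomial.X i2 ^ (n - k)) *
        MvPolynomial.X i0 ^ k
  have hF : MvPolynomial.aeval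
      (fun i : {i : Fin (n + 1) // (i : ℕ) ≠ k} => residue V (α i.1)) F = 0 := by
    simp only [F, map_sub, map_mul, map_pow, MvPolynomial.aeval_X, MvPolynomial.aeval_C,
      map_natCast]
    rw [sub_eq_zero]
    exact h
  have hF0 : F = 0 := AlgebraicIndependent.eq_zero_of_aeval_eq_zero H.hind F hF
  have h1 := congrArg (MvPolynomial.eval (fun i => if i = i1 then (0 : ZMod p) else 1)) hF0
  have n0 : i0 ≠ i1 := by
    intro h
    have := congrArg (fun z : {i : Fin (n + 1) // (i : ℕ) ≠ k} => (z.1 : ℕ)) h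
    simp [i0, i1] at this
  have n2 : i2 ≠ i1 := by
    intro h
    have := congrArg (fun z : {i : Fin (n + 1) // (i : ℕ) ≠ k} => (z.1 : ℕ)) h
    simp only [i2, i1] at this
    omega
  have n3 : i3 ≠ i1 := by
    intro h
    have := congrArg (fun z : {i : Fin (n + 1) // (i : ℕ) ≠ k} => (z.1 : ℕ)) h
    simp only [i3, i1] at this
    omega
  simp only [F, map_sub, map_mul, map_pow, MvPolynomial.eval_X, MvPolynomial.eval_C, map_zero,
    if_true, if_neg n0, if_neg n2, if_neg n3, one_pow, mul_one, one_mul] at h1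
  rw [zero_pow (by omega), zero_mul, zero_sub, neg_eq_zero] at h1
  exact hc2 ((CharP.cast_eq_zero_iff (ZMod p) p c2).1 h1)

theorem Hyp.val_mixed {i j : Fin N} (hi : i ∈ I0 V r) (hj : j ∈ I1 V r) :
    V.valuation (cv n k α (r i) - cv n k α (r j)) =
      max (V.valuation (cv n k α (r i))) (V.valuation (cv n k α (r j))) := by
  obtain ⟨hk2, hpk⟩ := H.I0_props hi
  obtain ⟨hm2, hpm⟩ := H.I1_props hj
  rcases lt_trichotomy (V.valuation (cv n k α (r i))) (V.valuation (cv n k α (r j)))
    with h | h | h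
  · rw [Valuation.map_sub_eq_of_lt_right _ h, max_eq_right h.le]
  · rw [← h, max_self]
    apply le_antisymm
    · refine (Valuation.map_sub _ _ _).trans ?_
      rw [← h, max_self]
    · by_contra hcon
      rw [not_le] at hcon
      have v0 := (H.val_cv0 hi).1
      have v1 := (H.val_cv1 hj).1
      obtain ⟨Y0, y0, y0'⟩ := H.S0 hi
      obtain ⟨Y1, y1, y1'⟩ := H.S1 hj
      set m := n - k with hm
      have hk0 : k ≠ 0 := by omega
      have hm0 : m ≠ 0 := by omega
      have hab : V.valuation (k : Ω) ^ k = V.valuation (m : Ω) ^ m := by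
        rw [v0, v1] at h
        exact inv_injective h
      rw [val_cast_pow p hk0, val_cast_pow p hm0, ← pow_mul, ← pow_mul] at hab
      have hexp := pow_val_inj p hab
      set k' := k / p ^ k.factorization p with hk'
      set m' := m / p ^ m.factorization p with hm'
      have hkk : p ^ k.factorization p * k' = k := Nat.ordProj_mul_ordCompl_eq_self k p
      have hmm : p ^ m.factorization p * m' = m := Nat.ordProj_mul_ordCompl_eq_self m p
      have hk1 : ¬ p ∣ k' := Nat.not_dvd_ordCompl Fact.out hk0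
      have hm1 : ¬ p ∣ m' := Nat.not_dvd_ordCompl Fact.out hm0
      have hnat : k ^ k * m' ^ m = m ^ m * k' ^ k := by
        have e1 : k ^ k = p ^ (k.factorization p * k) * k' ^ k := by
          conv_lhs => rw [← hkk]
          rw [mul_pow, hkk, ← pow_mul]
        have e2 : m ^ m = p ^ (m.factorization p * m) * m' ^ m := by
          conv_lhs => rw [← hmm]
          rw [mul_pow, hmm, ← pow_mul]
        rw [e1, e2, hexp]
        ring
      have hnat' : (k : Ω) ^ k * (m' : Ω) ^ m = (m : Ω) ^ m * (k' : Ω) ^ k := by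
        exact_mod_cast hnat
      have key : (cv n k α (r i) - cv n k α (r j)) * (k : Ω) ^ k * (m' : Ω) ^ m =
          ((-(Y0 * (m' : V) ^ m) + Y1 * (k' : V) ^ k : V) : Ω) := by
        push_cast
        linear_combination ((m' : Ω) ^ m) * y0 - ((k' : Ω) ^ k) * y1 -
          cv n k α (r j) * hnat'
      have hres : residue V (-(Y0 * (m' : V) ^ m) + Y1 * (k' : V) ^ k) = 0 := by
        rw [res_eq_zero_iff, ← key, map_mul, map_mul, map_pow, map_pow, val_cast_eq p hm1,
          one_pow, mul_one]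
        have hkv : 0 < V.valuation (k : Ω) ^ k := by
          apply pow_pos
          rw [zero_lt_iff, ne_eq, map_eq_zero]
          exact_mod_cast hk0
        calc V.valuation (cv n k α (r i) - cv n k α (r j)) * V.valuation (k : Ω) ^ k
            < V.valuation (cv n k α (r i)) * V.valuation (k : Ω) ^ k :=
              mul_lt_mul_of_pos_right hcon hkv
          _ = 1 := by rw [v0, inv_mul_cancel₀ hkv.ne']
      rw [map_add, map_neg, map_mul, map_mul, map_pow, map_pow, map_natCast, map_natCast]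
        at hres
      apply H.no_rel hk2 hm2 (c1 := m' ^ m) (c2 := k' ^ k)
      · intro hd
        exact hk1 ((Fact.out : p.Prime).dvd_of_dvd_pow hd)
      · push_cast
        rw [← hm]
        linear_combination (-(residue V (α n)) ^ m * (m' : ResidueField V) ^ m) * y0' +
          (residue V (α 0) ^ k * (k' : ResidueField V) ^ k) * y1' -
          (residue V (α 0) ^ k * residue V (α n) ^ m) * hres
  · rw [Valuation.map_sub_eq_of_lt_left _ h, max_eq_left h.le]

/-- The product of the valuations of all differences of critical values. -/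
theorem Hyp.prod_all :
    (∏ i, ∏ j ∈ Finset.univ.erase i, V.valuation (cv n k α (r i) - cv n k α (r j))) *
      (V.valuation (k : Ω) ^ k * V.valuation ((n - k : ℕ) : Ω) ^ (n - k)) ^ (2 * N - 2) =
      (if p = 2 then V.valuation (2 : Ω) ^ 2 else 1) ^ (IU V r).card *
      (if (k ≠ 0 ∧ p ∣ k) ∧ p ∣ n - k then
        max (V.valuation (k : Ω) ^ k) (V.valuation ((n - k : ℕ) : Ω) ^ (n - k)) ^ 2
      else 1) := by
  classical
  set v := V.valuation with hv
  set β0 := v (k : Ω) ^ k with hβ0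
  set β1 := v ((n - k : ℕ) : Ω) ^ (n - k) with hβ1
  set c := (if p = 2 then v (2 : Ω) ^ 2 else 1) with hc
  set u := (IU V r).card with hu
  have hcard := card_split (V := V) r
  have hz := H.card_I0
  have hw := H.card_I1
  have hn := H.hn
  have hk := H.hk
  have hN := H.hN
  have hβ0' : 0 < β0 := by
    rw [hβ0]
    by_cases hk0 : k = 0
    · rw [hk0, pow_zero]
      exact zero_lt_one
    · apply pow_pos
      rw [zero_lt_iff, ne_eq, hv, map_eq_zero]
      exact_mod_cast hk0
  have hβ1' : 0 < β1 := by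
    apply pow_pos
    rw [zero_lt_iff, ne_eq, hv, map_eq_zero]
    exact_mod_cast (by omega : n - k ≠ 0)
  -- the three kinds of inner products
  have inner : ∀ i, ∏ j ∈ Finset.univ.erase i, v (cv n k α (r i) - cv n k α (r j)) =
      (∏ j ∈ (I0 V r).erase i, v (cv n k α (r i) - cv n k α (r j))) *
      (∏ j ∈ (IU V r).erase i, v (cv n k α (r i) - cv n k α (r j))) *
      ∏ j ∈ (I1 V r).erase i, v (cv n k α (r i) - cv n k α (r j)) := by
    intro i
    have e : ∀ s : Finset (Fin N), ∏ j ∈ s.erase i, v (cv n k α (r i) - cv n k α (r j)) =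
        ∏ j ∈ s, if j = i then 1 else v (cv n k α (r i) - cv n k α (r j)) := by
      intro s
      by_cases his : i ∈ s
      · rw [← Finset.mul_prod_erase s _ his, if_pos rfl, one_mul]
        apply Finset.prod_congr rfl
        intro j hj
        rw [if_neg (Finset.ne_of_mem_erase hj)]
      · rw [Finset.erase_eq_of_notMem his]
        apply Finset.prod_congr rfl
        intro j hj
        rw [if_neg]
        rintro rfl
        exact his hj
    rw [e, e, e, e]
    exact prod_split (V := V) r _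
  have d01 : ∀ i ∈ I0 V r, i ∉ I1 V r := by
    intro i hi hj
    rw [mem_I0] at hi
    rw [mem_I1] at hj
    exact hi.le.not_gt hj
  have d0U : ∀ i ∈ I0 V r, i ∉ IU V r := by
    intro i hi hj
    rw [mem_I0] at hi
    rw [mem_IU] at hj
    exact hi.ne hj
  have dU1 : ∀ i ∈ IU V r, i ∉ I1 V r := by
    intro i hi hj
    rw [mem_IU] at hi
    rw [mem_I1] at hj
    exact hj.ne' hi
  set M := max β0⁻¹ β1⁻¹ with hM
  have p0 : ∀ i ∈ I0 V r, ∏ j ∈ Finset.univ.erase i, v (cv n k α (r i) - cv n k α (r j)) =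
      β0⁻¹ ^ u * M ^ (I1 V r).card := by
    intro i hi
    rw [inner i]
    have a1 : (I0 V r).erase i = ∅ := by
      rw [← Finset.card_eq_zero, Finset.card_erase_of_mem hi]
      rw [hz]
      split_ifs <;> rfl
    rw [a1, Finset.prod_empty, one_mul, Finset.erase_eq_of_notMem (d0U i hi),
      Finset.erase_eq_of_notMem (d01 i hi)]
    congr 1
    · rw [hu, ← Finset.prod_const]
      apply Finset.prod_congr rfl
      intro j hj
      have b1 := H.val_cv0 hi
      have b2 := H.val_cv_le hj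
      rw [Valuation.map_sub_eq_of_lt_left _ (lt_of_le_of_lt b2 b1.2), b1.1]
    · rw [← Finset.prod_const]
      apply Finset.prod_congr rfl
      intro j hj
      rw [H.val_mixed hi hj, (H.val_cv0 hi).1, (H.val_cv1 hj).1]
  have p1 : ∀ i ∈ I1 V r, ∏ j ∈ Finset.univ.erase i, v (cv n k α (r i) - cv n k α (r j)) =
      M ^ (I0 V r).card * β1⁻¹ ^ u := by
    intro i hi
    rw [inner i]
    have a1 : (I1 V r).erase i = ∅ := by
      rw [← Finset.card_eq_zero, Finset.card_erase_of_mem hi]
      rw [hw]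
      split_ifs <;> rfl
    rw [a1, Finset.prod_empty, mul_one,
      Finset.erase_eq_of_notMem (fun h => d01 i h hi),
      Finset.erase_eq_of_notMem (fun h => dU1 i h hi)]
    congr 1
    · rw [← Finset.prod_const]
      apply Finset.prod_congr rfl
      intro j hj
      rw [Valuation.map_sub_swap, H.val_mixed hj hi, (H.val_cv0 hj).1, (H.val_cv1 hi).1]
    · rw [hu, ← Finset.prod_const]
      apply Finset.prod_congr rfl
      intro j hj
      have b1 := H.val_cv1 hi
      have b2 := H.val_cv_le hj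
      rw [Valuation.map_sub_eq_of_lt_left _ (lt_of_le_of_lt b2 b1.2), b1.1]
  have pU : ∀ i ∈ IU V r, ∏ j ∈ Finset.univ.erase i, v (cv n k α (r i) - cv n k α (r j)) =
      β0⁻¹ ^ (I0 V r).card * c * β1⁻¹ ^ (I1 V r).card := by
    intro i hi
    rw [inner i, Finset.erase_eq_of_notMem (fun h => d0U i h hi),
      Finset.erase_eq_of_notMem (dU1 i hi), H.prodUU hi]
    congr 2
    · rw [← Finset.prod_const]
      apply Finset.prod_congr rfl
      intro j hj
      have b1 := H.val_cv0 hj
      have b2 := H.val_cv_le hi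
      rw [Valuation.map_sub_eq_of_lt_right _ (lt_of_le_of_lt b2 b1.2), b1.1]
    · rw [← Finset.prod_const]
      apply Finset.prod_congr rfl
      intro j hj
      have b1 := H.val_cv1 hj
      have b2 := H.val_cv_le hi
      rw [Valuation.map_sub_eq_of_lt_right _ (lt_of_le_of_lt b2 b1.2), b1.1]
  rw [prod_split (V := V) r, Finset.prod_congr rfl p0, Finset.prod_congr rfl p1,
    Finset.prod_congr rfl pU, Finset.prod_const, Finset.prod_const, Finset.prod_const, ← hu]
  set z := (I0 V r).card with hz'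
  set w := (I1 V r).card with hw'
  have b0 : z = 0 → β0 = 1 := by
    intro h0
    rw [hβ0]
    by_cases hk0 : k = 0
    · rw [hk0, pow_zero]
    · rw [h0] at hz
      have hpk : ¬ p ∣ k := by
        intro h
        rw [if_pos ⟨hk0, h⟩] at hz
        exact absurd hz (by norm_num)
      rw [hv, val_cast_eq p hpk, one_pow]
  have b1 : w = 0 → β1 = 1 := by
    intro h0
    rw [hβ1]
    rw [h0] at hw
    have hpk : ¬ p ∣ n - k := by
      intro h
      rw [if_pos h] at hw
      exact absurd hw (by norm_num)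
    rw [hv, val_cast_eq p hpk, one_pow]
  have i0 : β0 * β0⁻¹ = 1 := mul_inv_cancel₀ hβ0'.ne'
  have i1 : β1 * β1⁻¹ = 1 := mul_inv_cancel₀ hβ1'.ne'
  by_cases hA : k ≠ 0 ∧ p ∣ k
  · rw [if_pos hA] at hz
    by_cases hB : p ∣ n - k
    · rw [if_pos hB] at hw
      rw [if_pos ⟨hA, hB⟩, hz, hw]
      have hNu : 2 * N - 2 = 2 * u + 2 := by omega
      rw [hNu]
      have hmax : β0 * β1 * M = max β0 β1 := by
        rw [hM]
        rcases le_total β0 β1 with h | h
        · rw [max_eq_right h, max_eq_left (inv_anti₀ hβ0' h)]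
          rw [mul_comm β0 β1, mul_assoc, i0, mul_one]
        · rw [max_eq_left h, max_eq_right (inv_anti₀ hβ1' h)]
          rw [mul_assoc, i1, mul_one]
      rw [← hmax]
      have e1 : β0⁻¹ ^ u * β0 ^ u = 1 := by rw [← mul_pow, mul_comm, i0, one_pow]
      have e2 : β1⁻¹ ^ u * β1 ^ u = 1 := by rw [← mul_pow, mul_comm, i1, one_pow]
      rw [alg2, e1, e2, one_mul, one_mul, one_mul]
    · rw [if_neg hB] at hw
      rw [if_neg (fun h => hB h.2), hz, hw, b1 hw]
      have hNu : 2 * N - 2 = 2 * u := by omega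
      rw [hNu]
      have e1 : β0⁻¹ ^ u * β0 ^ u = 1 := by rw [← mul_pow, mul_comm, i0, one_pow]
      rw [alg1, e1, one_mul, one_mul, mul_one]
  · rw [if_neg hA] at hz
    rw [if_neg (fun h => hA h.1), hz, b0 hz]
    by_cases hB : p ∣ n - k
    · rw [if_pos hB] at hw
      rw [hw]
      have hNu : 2 * N - 2 = 2 * u := by omega
      rw [hNu]
      have e2 : β1⁻¹ ^ u * β1 ^ u = 1 := by rw [← mul_pow, mul_comm, i1, one_pow]
      rw [alg1', e2, one_mul, one_mul, mul_one]
    · rw [if_neg hB] at hw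
      rw [hw, b1 hw]
      simp
end Hyp

end Q36.DDi
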